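import Mathlib
import Pool.Agent.Helper278.GroupVN

/-!
Group von Neumann algebras: the commutation theorem, and the inclusion of the algebra of a subgroup.
-/

set_option autoImplicit false
set_option linter.unusedSectionVars false

open scoped InnerProductSpace ENNReal

namespace Pool.Agent.Q150.EG

open Pool.Agent.Helper278

section comm

variable {G : Type} [Group G] {K : Type} [NormedAddCommGroup K] [InnerProductSpace ℂ K]
  [CompleteSpace K] (b : HilbertBasis G ℂ K)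

theorem coef_comm (x : K →L[ℂ] K) (hx : ∀ g, rhoK b g * x = x * rhoK b g) (h k : G) :
    ⟪b k, x (b h)⟫_ℂ = ⟪b (k * h⁻¹), x (b 1)⟫_ℂ := by
  have h1 : b h = rhoK b h⁻¹ (b 1) := by
    unfold rhoK
    rw [permK_basis]
    congr 1
    show h = 1 * (h⁻¹)⁻¹
    group
  have h2 := congrArg (fun z : K →L[ℂ] K => z (b 1)) (hx h⁻¹)
  have h3 : rhoK b h⁻¹ (x (b 1)) = x (rhoK b h⁻¹ (b 1)) := h2
  rw [← h1] at h3
  rw [← h3]
  unfold rhoK
  rw [coef_permK]
  rfl

theorem coef_left (t : K →L[ℂ] K) (ht : ∀ g, lamK b g * t = t * lamK b g) (h k : G) :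
    ⟪b k, t (b h)⟫_ℂ = ⟪b (h⁻¹ * k), t (b 1)⟫_ℂ := by
  have h1 : b h = lamK b h (b 1) := by
    rw [lamK_basis, mul_one]
  have h2 := congrArg (fun z : K →L[ℂ] K => z (b 1)) (ht h)
  have h3 : lamK b h (t (b 1)) = t (lamK b h (b 1)) := h2
  rw [← h1] at h3
  rw [← h3]
  unfold lamK
  rw [coef_permK]
  rfl

theorem comm_aux (x : K →L[ℂ] K) (hx : ∀ g, rhoK b g * x = x * rhoK b g) (t : K →L[ℂ] K)
    (ht : ∀ g, lamK b g * t = t * lamK b g) : t * x = x * t := by
  apply ext_basis b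
  intro h
  apply ext_coef b
  intro k
  have e1 := b.hasSum_inner_mul_inner ((star t) (b k)) (x (b h))
  have e2 := b.hasSum_inner_mul_inner ((star x) (b k)) (t (b h))
  have f1 : ⟪(star t) (b k), x (b h)⟫_ℂ = ⟪b k, (t * x) (b h)⟫_ℂ := by
    rw [ContinuousLinearMap.star_eq_adjoint, ContinuousLinearMap.adjoint_inner_left]
    rfl
  have f2 : ⟪(star x) (b k), t (b h)⟫_ℂ = ⟪b k, (x * t) (b h)⟫_ℂ := by
    rw [ContinuousLinearMap.star_eq_adjoint, ContinuousLinearMap.adjoint_inner_left]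
    rfl
  rw [f1] at e1
  rw [f2] at e2
  refine e1.unique ?_
  let e : G ≃ G :=
    { toFun := fun m => h * m⁻¹ * k
      invFun := fun m => k * m⁻¹ * h
      left_inv := fun m => by group
      right_inv := fun m => by group }
  refine ((e.hasSum_iff (f := fun i => ⟪(star x) (b k), b i⟫_ℂ * ⟪b i, t (b h)⟫_ℂ)).2 e2).congr_fun
    ?_
  intro m
  show _ = ⟪(star x) (b k), b (h * m⁻¹ * k)⟫_ℂ * ⟪b (h * m⁻¹ * k), t (b h)⟫_ℂ
  rw [ContinuousLinearMap.star_eq_adjoint, ContinuousLinearMap.star_eq_adjoint,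
    ContinuousLinearMap.adjoint_inner_left, ContinuousLinearMap.adjoint_inner_left,
    coef_left b t ht m k, coef_left b t ht h, coef_comm b x hx h m, coef_comm b x hx _ k]
  have g1 : h⁻¹ * (h * m⁻¹ * k) = m⁻¹ * k := by group
  have g2 : k * (h * m⁻¹ * k)⁻¹ = m * h⁻¹ := by group
  rw [g1, g2, mul_comm]

/-- the commutation theorem -/
theorem mem_of_comm (x : K →L[ℂ] K) (hx : ∀ g, rhoK b g * x = x * rhoK b g) : x ∈ LK b := by
  rw [mem_LK]
  intro t ht
  refine ⟨comm_aux b x hx t ((mem_comm b t).1 ht), ?_⟩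
  have ht' : star t ∈ StarSubalgebra.centralizer ℂ (Set.range (lamK b)) := star_mem ht
  exact comm_aux b x hx _ ((mem_comm b _).1 ht')

/-- elements of `L(G)` are determined by their vectors -/
theorem ext_vec (x y : K →L[ℂ] K) (hx : x ∈ LK b) (hy : y ∈ LK b)
    (h : ∀ k, ⟪b k, x (b 1)⟫_ℂ = ⟪b k, y (b 1)⟫_ℂ) : x = y := by
  apply ext_basis b
  intro g
  apply ext_coef b
  intro k
  rw [coef_apply b x hx, coef_apply b y hy, h]

end comm

/-! ### the space `ℓ²(G)` -/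

/-- the standard basis of `ℓ²(G)` -/
noncomputable def bs (G : Type) : HilbertBasis G ℂ (EllTwo G) :=
  HilbertBasis.ofRepr (LinearIsometryEquiv.refl ℂ _)

theorem bs_inner {G : Type} (k : G) (ξ : EllTwo G) : ⟪bs G k, ξ⟫_ℂ = ξ k := by
  rw [← (bs G).repr_apply_apply]
  rfl

theorem permK_bs {G : Type} (e : G ≃ G) : permK (bs G) e = permOp e := by
  apply ext_basis (bs G)
  intro g
  apply ext_coef (bs G)
  intro k
  rw [coef_permK, bs_inner, bs_inner]
  rfl

theorem rho_apply {G : Type} [Group G] (g : G) (f : EllTwo G) (k : G) :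
    (rhoK (bs G) g f) k = f (k * g) := by
  unfold rhoK
  rw [permK_bs]
  rfl

theorem ell_ext {G : Type} {f g : EllTwo G} (h : ∀ k, f k = g k) : f = g := lp.ext (funext h)

theorem nsq {G : Type} (f : EllTwo G) : ENNReal.ofReal (‖f‖ ^ 2) = ∑' i, ENNReal.ofReal (‖f i‖ ^ 2) := by
  have h1 : (0 : ℝ) < (2 : ℝ≥0∞).toReal := by norm_num
  have h2 := lp.norm_rpow_eq_tsum h1 f
  have h3 := (lp.memℓp f).summable h1
  simp only [ENNReal.toReal_ofNat, Real.rpow_two] at h2 h3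
  rw [h2, ENNReal.ofReal_tsum_of_nonneg (fun i => sq_nonneg _) h3]

theorem mem_of_sum {G : Type} (f : G → ℂ) (h : ∑' i, ENNReal.ofReal (‖f i‖ ^ 2) ≠ ∞) :
    Memℓp f 2 := by
  refine memℓp_gen ?_
  simp only [ENNReal.toReal_ofNat, Real.rpow_two]
  have h2 := ENNReal.summable_toReal h
  refine h2.congr fun i => ?_
  rw [ENNReal.toReal_ofReal (sq_nonneg _)]

section amp

variable {U : Type} [Group U] (S : Subgroup U)

/-- the slice -/
noncomputable def Wf (v : U) (ξ : EllTwo U) : EllTwo S :=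
  ⟨fun s => ξ (s * v), by
    refine mem_of_sum _ ?_
    have h1 : ∑' s : S, ENNReal.ofReal (‖ξ (s * v)‖ ^ 2) ≤
        ∑' u : U, ENNReal.ofReal (‖ξ u‖ ^ 2) :=
      ENNReal.tsum_comp_le_tsum_of_injective (f := fun s : S => (s : U) * v)
        (fun a c h => Subtype.ext (mul_right_cancel h)) (fun u => ENNReal.ofReal (‖ξ u‖ ^ 2))
    rw [← nsq] at h1
    exact ne_top_of_le_ne_top ENNReal.ofReal_ne_top h1⟩

theorem Wf_apply (v : U) (ξ : EllTwo U) (s : S) : Wf S v ξ s = ξ (s * v) := rfl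

theorem Wf_norm (v : U) (ξ : EllTwo U) : ‖Wf S v ξ‖ ≤ ‖ξ‖ := by
  have h1 : ∑' s : S, ENNReal.ofReal (‖ξ (s * v)‖ ^ 2) ≤
      ∑' u : U, ENNReal.ofReal (‖ξ u‖ ^ 2) :=
    ENNReal.tsum_comp_le_tsum_of_injective (f := fun s : S => (s : U) * v)
      (fun a c h => Subtype.ext (mul_right_cancel h)) (fun u => ENNReal.ofReal (‖ξ u‖ ^ 2))
  have h2 : ∑' s : S, ENNReal.ofReal (‖ξ (s * v)‖ ^ 2) = ENNReal.ofReal (‖Wf S v ξ‖ ^ 2) :=
    (nsq (Wf S v ξ)).symm
  rw [h2, ← nsq, ENNReal.ofReal_le_ofReal_iff (sq_nonneg _)] at h1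
  exact (sq_le_sq₀ (norm_nonneg _) (norm_nonneg _)).1 h1

/-- the slice, as an operator -/
noncomputable def W (v : U) : EllTwo U →L[ℂ] EllTwo S :=
  LinearMap.mkContinuous
    { toFun := Wf S v
      map_add' := fun x y => ell_ext fun k => rfl
      map_smul' := fun c x => ell_ext fun k => rfl } 1
    (fun x => by rw [one_mul]; exact Wf_norm S v x)

theorem W_apply (v : U) (ξ : EllTwo U) (s : S) : W S v ξ s = ξ (s * v) := rfl

theorem W_norm (v : U) : ‖W S v‖ ≤ 1 := LinearMap.mkContinuous_norm_le _ zero_le_one _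

theorem W_mul (s : S) (v : U) (ξ : EllTwo U) : W S (s * v) ξ = rhoK (bs S) s (W S v ξ) := by
  apply ell_ext
  intro k
  rw [rho_apply, W_apply, W_apply]
  push_cast
  rw [mul_assoc]

theorem W_rho (u v : U) (ξ : EllTwo U) : W S v (rhoK (bs U) u ξ) = W S (v * u) ξ := by
  apply ell_ext
  intro k
  rw [W_apply, W_apply, rho_apply, mul_assoc]

/-- the decomposition into cosets -/
noncomputable def cosE : (U ⧸ S) × S ≃ U where
  toFun x := Quotient.out x.1 * (x.2 : U)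
  invFun u := (QuotientGroup.mk u, ⟨(Quotient.out (QuotientGroup.mk u : U ⧸ S))⁻¹ * u,
    QuotientGroup.eq.1 (Quotient.out_eq (QuotientGroup.mk u : U ⧸ S))⟩)
  left_inv x := by
    obtain ⟨q, s⟩ := x
    have h1 : (QuotientGroup.mk (Quotient.out q * (s : U)) : U ⧸ S) = q := by
      rw [QuotientGroup.mk_mul_of_mem _ s.2]
      exact Quotient.out_eq q
    refine Prod.ext h1 (Subtype.ext ?_)
    show (Quotient.out (QuotientGroup.mk (Quotient.out q * (s : U)) : U ⧸ S))⁻¹ *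
      (Quotient.out q * (s : U)) = s
    rw [h1]
    group
  right_inv u := by
    show Quotient.out (QuotientGroup.mk u : U ⧸ S) *
      ((Quotient.out (QuotientGroup.mk u : U ⧸ S))⁻¹ * u) = u
    group

/-- the sum over the cosets -/
theorem coset_sum (F : U → ℝ≥0∞) :
    ∑' u, F u = ∑' q : U ⧸ S, ∑' s : S, F (s * (Quotient.out q)⁻¹) := by
  have h1 : ∑' u, F u = ∑' u, F u⁻¹ := ((Equiv.inv U).tsum_eq F).symm
  rw [h1, ← (cosE S).tsum_eq (fun u => F u⁻¹),
    ENNReal.tsum_prod (f := fun q s => F (cosE S (q, s))⁻¹)]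
  refine tsum_congr fun q => ?_
  rw [← (Equiv.inv S).tsum_eq (fun s : S => F (s * (Quotient.out q)⁻¹))]
  refine tsum_congr fun s => ?_
  congr 1
  show (Quotient.out q * (s : U))⁻¹ = ((s⁻¹ : S) : U) * (Quotient.out q)⁻¹
  push_cast
  group

variable (p : EllTwo S →L[ℂ] EllTwo S) (hp : ∀ g : S, rhoK (bs S) g * p = p * rhoK (bs S) g)

include hp in
theorem amp_aux (ξ : EllTwo U) (s : S) (v : U) :
    (p (W S (s * v) ξ)) 1 = (p (W S v ξ)) s := by
  rw [W_mul]
  have h1 := congrArg (fun z : EllTwo S →L[ℂ] EllTwo S => z (W S v ξ)) (hp s)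
  have h2 : rhoK (bs S) s (p (W S v ξ)) = p (rhoK (bs S) s (W S v ξ)) := h1
  rw [← h2, rho_apply, one_mul]

include hp in
theorem amp_sum (ξ : EllTwo U) :
    ∑' u, ENNReal.ofReal (‖(p (W S u ξ)) 1‖ ^ 2) ≤ ENNReal.ofReal ((‖p‖ * ‖ξ‖) ^ 2) := by
  rw [coset_sum S]
  have h1 : ∀ q : U ⧸ S, ∑' s : S, ENNReal.ofReal (‖(p (W S (s * (Quotient.out q)⁻¹) ξ)) 1‖ ^ 2) ≤
      ENNReal.ofReal (‖p‖ ^ 2) * ∑' s : S, ENNReal.ofReal (‖ξ (s * (Quotient.out q)⁻¹)‖ ^ 2) := by
    intro q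
    have e1 : ∑' s : S, ENNReal.ofReal (‖(p (W S (s * (Quotient.out q)⁻¹) ξ)) 1‖ ^ 2) =
        ENNReal.ofReal (‖p (W S (Quotient.out q)⁻¹ ξ)‖ ^ 2) := by
      rw [nsq]
      refine tsum_congr fun s => ?_
      rw [amp_aux S p hp]
    have e2 : ∑' s : S, ENNReal.ofReal (‖ξ (s * (Quotient.out q)⁻¹)‖ ^ 2) =
        ENNReal.ofReal (‖W S (Quotient.out q)⁻¹ ξ‖ ^ 2) := by
      rw [nsq]
      rfl
    rw [e1, e2, ← ENNReal.ofReal_mul (sq_nonneg _), ← mul_pow]
    exact ENNReal.ofReal_le_ofReal (pow_le_pow_left₀ (norm_nonneg _) (p.le_opNorm _) 2)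
  refine (ENNReal.tsum_le_tsum h1).trans ?_
  rw [ENNReal.tsum_mul_left, ← coset_sum S (fun u => ENNReal.ofReal (‖ξ u‖ ^ 2)), ← nsq,
    ← ENNReal.ofReal_mul (sq_nonneg _), ← mul_pow]

/-- the amplification of an operator on `ℓ²(S)` which commutes with the right translations -/
noncomputable def amp : EllTwo U →L[ℂ] EllTwo U :=
  LinearMap.mkContinuous
    { toFun := fun ξ => (⟨fun u => (p (W S u ξ)) 1, mem_of_sum _
        (ne_top_of_le_ne_top ENNReal.ofReal_ne_top (amp_sum S p hp ξ))⟩ : EllTwo U)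
      map_add' := fun x y => ell_ext fun k => by
        show (p (W S k (x + y))) 1 = (p (W S k x)) 1 + (p (W S k y)) 1
        rw [map_add, map_add]; rfl
      map_smul' := fun c x => ell_ext fun k => by
        show (p (W S k (c • x))) 1 = c • (p (W S k x)) 1
        rw [map_smul, map_smul]; rfl } ‖p‖
    (fun ξ => by
      have h1 := amp_sum S p hp ξ
      set T : EllTwo U := ⟨fun u => (p (W S u ξ)) 1, mem_of_sum _
        (ne_top_of_le_ne_top ENNReal.ofReal_ne_top (amp_sum S p hp ξ))⟩ with hT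
      have h2 : ∑' u, ENNReal.ofReal (‖(p (W S u ξ)) 1‖ ^ 2) = ENNReal.ofReal (‖T‖ ^ 2) :=
        (nsq T).symm
      rw [h2, ENNReal.ofReal_le_ofReal_iff (sq_nonneg _)] at h1
      exact (sq_le_sq₀ (norm_nonneg _) (by positivity)).1 h1)

theorem amp_apply (ξ : EllTwo U) (u : U) : amp S p hp ξ u = (p (W S u ξ)) 1 := rfl

theorem amp_norm : ‖amp S p hp‖ ≤ ‖p‖ := LinearMap.mkContinuous_norm_le _ (norm_nonneg _) _

theorem W_amp (v : U) (ξ : EllTwo U) : W S v (amp S p hp ξ) = p (W S v ξ) := by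
  apply ell_ext
  intro s
  rw [W_apply, amp_apply, amp_aux S p hp]

theorem amp_comm (u : U) : rhoK (bs U) u * amp S p hp = amp S p hp * rhoK (bs U) u := by
  ext ξ v
  show (rhoK (bs U) u (amp S p hp ξ)) v = (amp S p hp (rhoK (bs U) u ξ)) v
  rw [rho_apply, amp_apply, amp_apply, W_rho]

theorem amp_mem : amp S p hp ∈ LK (bs U) := mem_of_comm _ _ (amp_comm S p hp)

end amp

end Pool.Agent.Q150.EG
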