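import Mathlib
import Pool.Agent.Q150.EG.Amp
import Pool.Agent.H504R3.ThB

/-!
The tracial von Neumann algebra of a group, the inclusion of the algebra of a subgroup and the
conditional expectation.
-/

set_option autoImplicit false
set_option linter.unusedSectionVars false

open scoped InnerProductSpace ENNReal

namespace Pool.Agent.Q150.EG

open Pool.Agent.Helper278
open Pool.Agent.H504R3 hiding Tm Fm
open Pool.Agent.H504R3.S (str Str Tm Fm tval)

theorem bs_apply {G : Type} (g k : G) [Decidable (k = g)] : (bs G g) k = if k = g then 1 else 0 := by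
  classical
  rw [← bs_inner]
  split_ifs with h
  · rw [h, inner_bb_self]
  · exact inner_bb _ _ _ h

theorem tr_star_mul {G : Type} [Group G] (x : Elt (LK (bs G))) :
    trG (bs G) (star x * x) =
      ⟪(x : EllTwo G →L[ℂ] EllTwo G) (bs G 1), (x : EllTwo G →L[ℂ] EllTwo G) (bs G 1)⟫_ℂ := by
  rw [← ContinuousLinearMap.adjoint_inner_right, ← ContinuousLinearMap.star_eq_adjoint]
  rfl

/-- The group von Neumann algebra `L(G)`: the von Neumann algebra on `ℓ²(G)` generated by the left
translations, with the canonical trace `x ↦ ⟨δ₁, x δ₁⟩`. -/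
noncomputable def LG (G : Type) [Group G] : TVN where
  H := EllTwo G
  N := LK (bs G)
  τ := trG (bs G)
  map_one := (isTr_trG (bs G)).one
  tracial := (isTr_trG (bs G)).comm
  faithful := by
    intro x hx
    rw [tr_star_mul, inner_self_eq_zero] at hx
    apply Subtype.ext
    refine ext_vec (bs G) _ _ x.2 (zero_mem _) fun k => ?_
    rw [hx]
    rfl
  normal := by
    refine ⟨fun k => if k = 0 then bs G 1 else 0, ?_, fun x => ?_⟩
    · refine summable_of_ne_finset_zero (s := {0}) fun k hk => ?_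
      rw [Finset.mem_singleton] at hk
      show ‖(if k = 0 then bs G 1 else 0 : EllTwo G)‖ ^ 2 = 0
      rw [if_neg hk]
      simp
    · rw [tsum_eq_single 0]
      · rfl
      · intro k hk
        show ⟪(if k = 0 then bs G 1 else 0 : EllTwo G), _⟫_ℂ = 0
        rw [if_neg hk, inner_zero_left]

section

variable {G : Type} [Group G]

/-- the operator -/
noncomputable def op (x : (LG G).E) : EllTwo G →L[ℂ] EllTwo G := x.1

theorem op_inj {x y : (LG G).E} (h : op x = op y) : x = y := Subtype.ext h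

theorem op_mem (x : (LG G).E) : op x ∈ LK (bs G) := x.2

/-- the coefficients -/
noncomputable def cf (x : (LG G).E) (g : G) : ℂ := (op x (bs G 1)) g

/-- the vector -/
noncomputable def vec (x : (LG G).E) : EllTwo G := op x (bs G 1)

theorem vec_apply (x : (LG G).E) (g : G) : vec x g = cf x g := rfl

theorem vec_sub (x y : (LG G).E) : vec (x - y) = vec x - vec y := rfl

theorem cf_inner (x : (LG G).E) (g : G) : ⟪bs G g, op x (bs G 1)⟫_ℂ = cf x g := bs_inner _ _

theorem ext_cf {x y : (LG G).E} (h : ∀ g, cf x g = cf y g) : x = y := by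
  apply op_inj
  refine ext_vec (bs G) _ _ (op_mem x) (op_mem y) fun k => ?_
  rw [cf_inner, cf_inner, h]

theorem norm2_vec (x : (LG G).E) : (LG G).norm2 x = ‖vec x‖ := by
  unfold TVN.norm2
  have h1 : (LG G).τ (star x * x) = ⟪vec x, vec x⟫_ℂ := tr_star_mul x
  rw [h1, inner_self_eq_norm_sq_to_K]
  have h2 : (((‖vec x‖ : ℂ) ^ 2)).re = ‖vec x‖ ^ 2 := by
    rw [← Complex.ofReal_pow, Complex.ofReal_re]
  exact (congrArg Real.sqrt h2).trans (Real.sqrt_sq (norm_nonneg _))

theorem cf_star (x : (LG G).E) (g : G) : cf (star x) g = star (cf x g⁻¹) := by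
  rw [← cf_inner, ← cf_inner]
  exact star_coef (bs G) _ (op_mem x) g

theorem tr_eq (x : (LG G).E) : (LG G).τ x = cf x 1 := cf_inner x 1

end

section incl

variable {U : Type} [Group U] (S : Subgroup U)

open Classical in
theorem W_bs (v g : U) : W S v (bs U g) = if h : g * v⁻¹ ∈ S then bs S ⟨g * v⁻¹, h⟩ else 0 := by
  apply ell_ext
  intro s
  rw [W_apply, bs_apply]
  by_cases h1 : (s : U) * v = g
  · have h2 : g * v⁻¹ ∈ S := by
      rw [← h1]
      simp
    rw [if_pos h1, dif_pos h2, bs_apply, if_pos]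
    apply Subtype.ext
    show (s : U) = g * v⁻¹
    rw [← h1]; group
  · rw [if_neg h1]
    by_cases h2 : g * v⁻¹ ∈ S
    · rw [dif_pos h2, bs_apply, if_neg]
      intro h3
      apply h1
      rw [h3]
      show g * v⁻¹ * v = g
      group
    · rw [dif_neg h2]
      rfl

/-- the inclusion, as a function -/
noncomputable def iotaF (p : (LG S).E) : (LG U).E :=
  ⟨amp S (op p) (comm_right (bs S) (op p) (op_mem p)), amp_mem S (op p) _⟩

theorem op_iotaF (p : (LG S).E) :
    op (iotaF S p) = amp S (op p) (comm_right (bs S) (op p) (op_mem p)) := rfl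

open Classical in
theorem cf_iotaF (p : (LG S).E) (u : U) :
    cf (iotaF S p) u = if h : u ∈ S then cf p ⟨u, h⟩ else 0 := by
  show (op (iotaF S p) (bs U 1)) u = _
  rw [op_iotaF, amp_apply, W_bs]
  have e : (1 : U) * u⁻¹ ∈ S ↔ u ∈ S := by rw [one_mul, inv_mem_iff]
  by_cases h : u ∈ S
  · rw [dif_pos (e.2 h), dif_pos h, ← bs_inner, coef_apply (bs S) _ (op_mem p), ← cf_inner]
    congr 2
    apply Subtype.ext
    show (1 : U) * (1 * u⁻¹)⁻¹ = u
    group
  · rw [dif_neg (fun h' => h (e.1 h')), dif_neg h, map_zero]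
    rfl

/-- the inclusion `L(S) → L(U)` -/
noncomputable def iota : (LG S).E →⋆ₐ[ℂ] (LG U).E where
  toFun := iotaF S
  map_one' := by
    apply op_inj
    ext ξ v
    show (W S v ξ) 1 = ξ v
    rw [W_apply]
    congr 1
    simp
  map_mul' p q := by
    apply op_inj
    ext ξ v
    show (op p (op q (W S v ξ))) 1 = (op p (W S v (amp S (op q)
      (comm_right (bs S) (op q) (op_mem q)) ξ))) 1
    rw [W_amp]
  map_zero' := by
    apply op_inj
    ext ξ v
    rfl
  map_add' p q := by
    apply op_inj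
    ext ξ v
    rfl
  commutes' c := by
    apply op_inj
    ext ξ v
    show c • (W S v ξ) 1 = c • ξ v
    rw [W_apply]
    congr 2
    simp
  map_star' p := by
    apply ext_cf
    intro u
    rw [cf_iotaF, cf_star, cf_iotaF]
    by_cases h : u ∈ S
    · rw [dif_pos h, dif_pos (inv_mem h), cf_star]
      rfl
    · rw [dif_neg h, dif_neg (fun h' => h (inv_mem_iff.1 h')), star_zero]

open Classical in
theorem cf_iota (p : (LG S).E) (u : U) :
    cf (iota S p) u = if h : u ∈ S then cf p ⟨u, h⟩ else 0 := cf_iotaF S p u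

theorem tr_iota (p : (LG S).E) : (LG U).τ (iota S p) = (LG S).τ p := by
  rw [tr_eq, tr_eq, cf_iota, dif_pos (one_mem S)]
  rfl

theorem norm2_iota (p : (LG S).E) : (LG U).norm2 (iota S p) = (LG S).norm2 p := by
  unfold TVN.norm2
  rw [← map_star, ← map_mul, tr_iota]

/-! ### the compression -/

theorem star_rho {G : Type} [Group G] (g : G) : star (rhoK (bs G) g) = rhoK (bs G) g⁻¹ := by
  unfold rhoK
  rw [star_permK]
  rfl

/-- the compression -/
noncomputable def cmpOp (T : EllTwo U →L[ℂ] EllTwo U) : EllTwo S →L[ℂ] EllTwo S :=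
  (W S 1).comp (T.comp (ContinuousLinearMap.adjoint (W S 1)))

theorem W_rho_comp (s : S) : (W S 1).comp (rhoK (bs U) (s : U)) = (rhoK (bs S) s).comp (W S 1) := by
  ext ξ k
  show (W S 1 (rhoK (bs U) (s : U) ξ)) k = (rhoK (bs S) s (W S 1 ξ)) k
  rw [W_rho, one_mul, ← W_mul, mul_one]

theorem adj_rho_comp (s : S) : (rhoK (bs U) (s : U)).comp (ContinuousLinearMap.adjoint (W S 1)) =
    (ContinuousLinearMap.adjoint (W S 1)).comp (rhoK (bs S) s) := by
  have h1 := congrArg ContinuousLinearMap.adjoint (W_rho_comp S s⁻¹)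
  rw [ContinuousLinearMap.adjoint_comp, ContinuousLinearMap.adjoint_comp,
    ← ContinuousLinearMap.star_eq_adjoint (rhoK (bs U) _),
    ← ContinuousLinearMap.star_eq_adjoint (rhoK (bs S) _), star_rho, star_rho, inv_inv] at h1
  rw [← h1]
  congr 2
  push_cast
  rw [inv_inv]

theorem cmpOp_mem (T : EllTwo U →L[ℂ] EllTwo U) (hT : T ∈ LK (bs U)) : cmpOp S T ∈ LK (bs S) := by
  refine mem_of_comm _ _ fun s => ?_
  show (rhoK (bs S) s).comp ((W S 1).comp (T.comp (ContinuousLinearMap.adjoint (W S 1)))) =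
    ((W S 1).comp (T.comp (ContinuousLinearMap.adjoint (W S 1)))).comp (rhoK (bs S) s)
  have h1 : (rhoK (bs U) (s : U)).comp T = T.comp (rhoK (bs U) (s : U)) :=
    comm_right (bs U) T hT s
  calc (rhoK (bs S) s).comp ((W S 1).comp (T.comp (ContinuousLinearMap.adjoint (W S 1))))
      = ((rhoK (bs S) s).comp (W S 1)).comp (T.comp (ContinuousLinearMap.adjoint (W S 1))) := rfl
    _ = ((W S 1).comp (rhoK (bs U) (s : U))).comp
          (T.comp (ContinuousLinearMap.adjoint (W S 1))) := by rw [W_rho_comp]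
    _ = (W S 1).comp (((rhoK (bs U) (s : U)).comp T).comp
          (ContinuousLinearMap.adjoint (W S 1))) := rfl
    _ = (W S 1).comp ((T.comp (rhoK (bs U) (s : U))).comp
          (ContinuousLinearMap.adjoint (W S 1))) := by rw [h1]
    _ = (W S 1).comp (T.comp ((rhoK (bs U) (s : U)).comp
          (ContinuousLinearMap.adjoint (W S 1)))) := rfl
    _ = (W S 1).comp (T.comp ((ContinuousLinearMap.adjoint (W S 1)).comp (rhoK (bs S) s))) := by
          rw [adj_rho_comp]
    _ = _ := rfl

/-- the compression -/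
noncomputable def cmp (T : (LG U).E) : (LG S).E := ⟨cmpOp S (op T), cmpOp_mem S (op T) (op_mem T)⟩

theorem adj_W_bs (s : S) : ContinuousLinearMap.adjoint (W S 1) (bs S s) = bs U s := by
  classical
  apply ext_coef (bs U)
  intro k
  rw [ContinuousLinearMap.adjoint_inner_right, W_bs, bs_inner, bs_apply]
  have e : k * (1 : U)⁻¹ = k := by simp
  by_cases h2 : k = s
  · have h1 : k * (1 : U)⁻¹ ∈ S := by rw [e, h2]; exact s.2
    rw [dif_pos h1, if_pos h2]
    have : (⟨k * 1⁻¹, h1⟩ : S) = s := Subtype.ext (e.trans h2)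
    rw [this, inner_bb_self]
  · rw [if_neg h2]
    by_cases h1 : k * (1 : U)⁻¹ ∈ S
    · rw [dif_pos h1]
      refine inner_bb _ _ _ fun h3 => h2 ?_
      rw [← h3]
      exact e.symm
    · rw [dif_neg h1, inner_zero_left]

theorem cf_cmp (T : (LG U).E) (s : S) : cf (cmp S T) s = cf T s := by
  rw [← cf_inner, ← cf_inner]
  show ⟪bs S s, W S 1 (op T (ContinuousLinearMap.adjoint (W S 1) (bs S 1)))⟫_ℂ = _
  rw [← ContinuousLinearMap.adjoint_inner_left, adj_W_bs, adj_W_bs]
  rfl

theorem opNorm_cmp (T : (LG U).E) : (LG S).opNorm (cmp S T) ≤ (LG U).opNorm T := by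
  show ‖(W S 1).comp ((op T).comp (ContinuousLinearMap.adjoint (W S 1)))‖ ≤ ‖op T‖
  have h1 := W_norm S (1 : U)
  have h2 : ‖ContinuousLinearMap.adjoint (W S 1)‖ ≤ 1 := by
    rw [LinearIsometryEquiv.norm_map]; exact h1
  have h5 := norm_nonneg (op T)
  calc ‖(W S 1).comp ((op T).comp (ContinuousLinearMap.adjoint (W S 1)))‖
      ≤ ‖W S (1 : U)‖ * ‖(op T).comp (ContinuousLinearMap.adjoint (W S 1))‖ :=
        ContinuousLinearMap.opNorm_comp_le _ _
    _ ≤ ‖W S (1 : U)‖ * (‖op T‖ * ‖ContinuousLinearMap.adjoint (W S 1)‖) :=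
        mul_le_mul_of_nonneg_left (ContinuousLinearMap.opNorm_comp_le _ _) (norm_nonneg _)
    _ ≤ 1 * (‖op T‖ * 1) :=
        mul_le_mul h1 (mul_le_mul_of_nonneg_left h2 h5) (by positivity) zero_le_one
    _ = ‖op T‖ := by ring

theorem cmp_iota (p : (LG S).E) : cmp S (iota S p) = p := by
  apply ext_cf
  intro s
  rw [cf_cmp, cf_iota, dif_pos s.2]

theorem opNorm_iota (p : (LG S).E) : (LG U).opNorm (iota S p) = (LG S).opNorm p := by
  refine le_antisymm (amp_norm S (op p) (comm_right (bs S) (op p) (op_mem p))) ?_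
  have := opNorm_cmp S (iota S p)
  rwa [cmp_iota] at this

theorem iota_cmp (T : (LG U).E) (hT : ∀ u, cf T u ≠ 0 → u ∈ S) : iota S (cmp S T) = T := by
  classical
  apply ext_cf
  intro u
  rw [cf_iota]
  split_ifs with h
  · exact cf_cmp S T ⟨u, h⟩
  · by_contra h2
    exact h (hT u (Ne.symm h2))

/-- the vector of the conditional expectation -/
theorem vec_ic (T : (LG U).E) : vec (iota S (cmp S T)) =
    ContinuousLinearMap.adjoint (W S 1) (W S 1 (vec T)) := by
  classical
  apply ext_coef (bs U)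
  intro k
  rw [ContinuousLinearMap.adjoint_inner_right, W_bs, bs_inner, vec_apply, cf_iota]
  have e : k * (1 : U)⁻¹ = k := by simp
  by_cases h : k ∈ S
  · have h' : k * (1 : U)⁻¹ ∈ S := by rw [e]; exact h
    rw [dif_pos h, dif_pos h', bs_inner, W_apply, cf_cmp]
    show cf T k = cf T (k * 1⁻¹ * 1)
    congr 1
    group
  · have h' : ¬ k * (1 : U)⁻¹ ∈ S := by rw [e]; exact h
    rw [dif_neg h, dif_neg h', inner_zero_left]

end incl

/-- approximation by the algebras of an increasing sequence of subgroups -/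
theorem exists_approx {U : Type} [Group U] (S : ℕ → Subgroup U) (hS : Monotone S) (T : (LG U).E)
    (hT : ∀ u, cf T u ≠ 0 → ∃ n, u ∈ S n) (ε : ℝ) (hε : 0 < ε) :
    ∃ N, ∀ n, N ≤ n → (LG U).norm2 (T - iota (S n) (cmp (S n) T)) < ε := by
  classical
  have h1 := lp.hasSum_single (p := 2) (by norm_num) (vec T)
  have h2 := (Metric.tendsto_atTop.1 h1 (ε / 2) (by linarith))
  obtain ⟨F, hF⟩ := h2
  have hF := hF F le_rfl
  have h3 : ∃ N, ∀ u ∈ F, cf T u ≠ 0 → u ∈ S N := by
    have : ∀ F : Finset U, ∃ N, ∀ u ∈ F, cf T u ≠ 0 → u ∈ S N := by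
      intro F
      induction F using Finset.induction_on with
      | empty => exact ⟨0, fun u hu => absurd hu (Finset.notMem_empty u)⟩
      | insert a F ha ih =>
        obtain ⟨N, hN⟩ := ih
        by_cases h : cf T a ≠ 0
        · obtain ⟨m, hm⟩ := hT a h
          refine ⟨max N m, fun u hu h0 => ?_⟩
          rcases Finset.mem_insert.1 hu with rfl | hu
          · exact hS (le_max_right _ _) hm
          · exact hS (le_max_left _ _) (hN u hu h0)
        · refine ⟨N, fun u hu h0 => ?_⟩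
          rcases Finset.mem_insert.1 hu with rfl | hu
          · exact absurd h0 h
          · exact hN u hu h0
    exact this F
  obtain ⟨N, hN⟩ := h3
  refine ⟨N, fun n hn => ?_⟩
  rw [norm2_vec, vec_sub, vec_ic]
  set η : EllTwo U := ∑ i ∈ F, lp.single 2 i ((vec T) i) with hη
  set P : EllTwo U →L[ℂ] EllTwo U := (ContinuousLinearMap.adjoint (W (S n) 1)).comp (W (S n) 1)
    with hP
  have hPn : ‖P‖ ≤ 1 := by
    have h2 : ‖ContinuousLinearMap.adjoint (W (S n) 1)‖ ≤ 1 := by
      rw [LinearIsometryEquiv.norm_map]; exact W_norm _ _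
    refine (ContinuousLinearMap.opNorm_comp_le _ _).trans ?_
    calc _ ≤ (1 : ℝ) * 1 := mul_le_mul h2 (W_norm _ _) (norm_nonneg _) zero_le_one
      _ = 1 := one_mul 1
  have hPη : P η = η := by
    rw [hη, map_sum]
    refine Finset.sum_congr rfl fun i hi => ?_
    have e1 : (lp.single 2 i ((vec T) i) : EllTwo U) = (vec T) i • bs U i := by
      apply ell_ext
      intro k
      show (lp.single 2 i ((vec T) i) : EllTwo U) k = (vec T) i * (bs U i) k
      rw [lp.single_apply, bs_apply, Pi.single_apply]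
      split_ifs with h
      · rw [mul_one]
      · rw [mul_zero]
    rw [e1, map_smul]
    by_cases h0 : (vec T) i = 0
    · rw [h0, zero_smul, zero_smul]
    · congr 1
      have hi' : i ∈ S n := hS hn (hN i hi (by rw [← vec_apply]; exact h0))
      show ContinuousLinearMap.adjoint (W (S n) 1) (W (S n) 1 (bs U i)) = bs U i
      have e : i * (1 : U)⁻¹ = i := by simp
      have e' : i * (1 : U)⁻¹ ∈ S n := by rw [e]; exact hi'
      rw [W_bs, dif_pos e', adj_W_bs]
      exact congrArg (bs U) e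
  have hd : ‖η - vec T‖ < ε / 2 := by
    rw [← dist_eq_norm]
    exact hF
  have key : vec T - P (vec T) = (vec T - η) + P (η - vec T) := by
    rw [map_sub, hPη]
    abel
  show ‖vec T - P (vec T)‖ < ε
  rw [key]
  refine (norm_add_le _ _).trans_lt ?_
  have h4 : ‖P (η - vec T)‖ ≤ 1 * ‖η - vec T‖ :=
    (P.le_opNorm _).trans (mul_le_mul_of_nonneg_right hPn (norm_nonneg _))
  rw [norm_sub_rev (vec T) η]
  linarith

/-- the balls are separable -/
theorem exists_dense {G : Type} [Group G] [Countable G] (R : ℝ) :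
    ∃ D : Set (LG G).E, D.Countable ∧ (∀ x ∈ D, (LG G).opNorm x ≤ R) ∧
      ∀ x : (LG G).E, (LG G).opNorm x ≤ R → ∀ ε : ℝ, 0 < ε → ∃ y ∈ D, (LG G).norm2 (x - y) < ε := by
  have h1 : TopologicalSpace.IsSeparable (Set.univ : Set (EllTwo G)) := by
    have h2 := (Set.countable_range (bs G)).isSeparable.span (R := ℂ)
    have h3 := h2.closure
    have h4 : closure ((Submodule.span ℂ (Set.range (bs G)) : Submodule ℂ (EllTwo G)) :
        Set (EllTwo G)) = Set.univ := by
      have := (bs G).dense_span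
      rw [← Submodule.topologicalClosure_coe, this]
      rfl
    rwa [h4] at h3
  obtain ⟨t, ht1, ht2, ht3⟩ := (h1.mono (Set.subset_univ
    (vec '' {x : (LG G).E | (LG G).opNorm x ≤ R}))).exists_countable_dense_subset
  have ht1' : ∀ v ∈ t, ∃ x : (LG G).E, (LG G).opNorm x ≤ R ∧ vec x = v := fun v hv => ht1 hv
  choose! f hf using ht1'
  refine ⟨f '' t, ht2.image f, ?_, ?_⟩
  · rintro _ ⟨v, hv, rfl⟩
    exact (hf v hv).1
  · intro x hx ε hε
    obtain ⟨v, hv, hd⟩ := Metric.mem_closure_iff.1 (ht3 ⟨x, hx, rfl⟩) ε hε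
    refine ⟨f v, ⟨v, hv, rfl⟩, ?_⟩
    rw [norm2_vec, vec_sub, (hf v hv).2, ← dist_eq_norm]
    exact hd

end Pool.Agent.Q150.EG
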