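import Mathlib

/-!
Groups closed under solving conditions that are solvable in an overgroup, amalgamation and
unions of chains of subgroups.
-/

set_option autoImplicit false
set_option linter.unusedSectionVars false

namespace Pool.Agent.Q150.EG

open Function

section

variable {C : ℕ → ℕ → Type}
  (Sat : ∀ (m n : ℕ), C m n → ∀ (K : Type) [Group K], (Fin m ⊕ Fin n → K) → Prop)

/-- the condition `c` over `g` is solvable in an overgroup -/
def Solv {m n : ℕ} (c : C m n) (G : Type) [Group G] (g : Fin m → G) : Prop :=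
  ∃ (K : Type) (_ : Group K) (φ : G →* K), Injective φ ∧ ∃ x : Fin n → K,
    Sat m n c K (Sum.elim (φ ∘ g) x)

/-- the conditions solvable in an overgroup are solvable in `G` -/
def ClosedG (G : Type) [Group G] : Prop :=
  ∀ (m n : ℕ) (c : C m n) (g : Fin m → G), Solv Sat c G g → ∃ x : Fin n → G,
    Sat m n c G (Sum.elim g x)

/-- conditions persist under injective homomorphisms -/
def Persist : Prop :=
  ∀ (m n : ℕ) (c : C m n) (K L : Type) [Group K] [Group L] (ψ : K →* L), Injective ψ →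
    ∀ v : Fin m ⊕ Fin n → K, Sat m n c K v → Sat m n c L (ψ ∘ v)

theorem comp_sumElim {K L : Type} {m n : ℕ} (ψ : K → L) (g : Fin m → K) (x : Fin n → K) :
    ψ ∘ Sum.elim g x = Sum.elim (ψ ∘ g) (ψ ∘ x) := by
  funext i
  cases i <;> rfl

theorem exists_step_group (hP : Persist Sat) (Γ : Type) [Group Γ] :
    ∃ (E : Type) (_ : Group E) (φ : Γ →* E), Injective φ ∧
      ∀ (m n : ℕ) (c : C m n) (g : Fin m → Γ), Solv Sat c Γ g →
        ∃ x : Fin n → E, Sat m n c E (Sum.elim (φ ∘ g) x) := by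
  classical
  let ι : Type := {p : (Σ q : ℕ × ℕ, C q.1 q.2 × (Fin q.1 → Γ)) // Solv Sat p.2.1 Γ p.2.2}
  have hι : ∀ i : ι, ∃ (K : Type) (_ : Group K) (φ : Γ →* K), Injective φ ∧
      ∃ x : Fin i.1.1.2 → K, Sat i.1.1.1 i.1.1.2 i.1.2.1 K (Sum.elim (φ ∘ i.1.2.2) x) :=
    fun i => i.2
  choose K hK φ hφ x hx using hι
  refine ⟨Monoid.PushoutI φ, inferInstance, Monoid.PushoutI.base φ,
    Monoid.PushoutI.base_injective hφ, ?_⟩
  intro m n c g hc
  let i : ι := ⟨⟨(m, n), (c, g)⟩, hc⟩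
  have h1 := hP m n c (K i) (Monoid.PushoutI φ) (Monoid.PushoutI.of i)
    (Monoid.PushoutI.of_injective hφ i) _ (hx i)
  refine ⟨Monoid.PushoutI.of i ∘ x i, ?_⟩
  rw [comp_sumElim] at h1
  have h2 : (Monoid.PushoutI.of i : K i →* Monoid.PushoutI φ) ∘ (φ i ∘ g) =
      Monoid.PushoutI.base φ ∘ g := by
    funext j
    exact Monoid.PushoutI.of_apply_eq_base φ i (g j)
  have h3 : (Monoid.PushoutI.of i : K i →* Monoid.PushoutI φ) ∘ (φ i ∘ i.1.2.2) =
      Monoid.PushoutI.base φ ∘ g := h2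
  rw [h3] at h1
  exact h1

/-- the two element family -/
def Fam (K L : Type) : Bool → Type
  | false => K
  | true => L

instance famGroup (K L : Type) [Group K] [Group L] : ∀ b, Group (Fam K L b)
  | false => inferInstanceAs (Group K)
  | true => inferInstanceAs (Group L)

/-- the two maps -/
def famHom {T K L : Type} [Group T] [Group K] [Group L] (φ : T →* K) (ψ : T →* L) :
    ∀ b, T →* Fam K L b
  | false => φ
  | true => ψ

/-- amalgamation -/
theorem exists_amalgam {T K L : Type} [Group T] [Group K] [Group L] (φ : T →* K) (ψ : T →* L)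
    (hφ : Injective φ) (hψ : Injective ψ) : ∃ (M : Type) (_ : Group M) (α : K →* M) (β : L →* M),
      Injective α ∧ Injective β ∧ ∀ t, α (φ t) = β (ψ t) := by
  have hθ : ∀ b, Injective (famHom φ ψ b) := by
    intro b
    cases b
    · exact hφ
    · exact hψ
  refine ⟨Monoid.PushoutI (famHom φ ψ), inferInstance, Monoid.PushoutI.of (φ := famHom φ ψ) false,
    Monoid.PushoutI.of (φ := famHom φ ψ) true, Monoid.PushoutI.of_injective hθ false,
    Monoid.PushoutI.of_injective hθ true, fun t => ?_⟩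
  exact (Monoid.PushoutI.of_apply_eq_base (famHom φ ψ) false t).trans
    (Monoid.PushoutI.of_apply_eq_base (famHom φ ψ) true t).symm

end

section limit

variable (X : ℕ → Type) [∀ n, Group (X n)] (f : ∀ n, X n →* X (n + 1))

/-- transition maps -/
def tr (i j : ℕ) (h : i ≤ j) : X i →* X j :=
  Nat.leRecOn (C := fun j => X i →* X j) h (fun {k} g => (f k).comp g) (MonoidHom.id _)

theorem tr_self (i : ℕ) : tr X f i i le_rfl = MonoidHom.id _ := Nat.leRecOn_self _

theorem tr_succ (i j : ℕ) (h : i ≤ j) (h' : i ≤ j + 1) : tr X f i (j + 1) h' = (f j).comp (tr X f i j h) :=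
  Nat.leRecOn_succ h _

theorem tr_tr (i j k : ℕ) (hij : i ≤ j) (hjk : j ≤ k) (x : X i) :
    tr X f j k hjk (tr X f i j hij x) = tr X f i k (hij.trans hjk) x := by
  induction k, hjk using Nat.le_induction with
  | base => rw [tr_self]; rfl
  | succ k hk ih =>
    rw [tr_succ X f j k hk, tr_succ X f i k (hij.trans hk)]
    exact congrArg (f k) ih

theorem tr_inj (hf : ∀ n, Injective (f n)) (i j : ℕ) (h : i ≤ j) : Injective (tr X f i j h) := by
  induction j, h using Nat.le_induction with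
  | base => rw [tr_self]; exact injective_id
  | succ k hk ih =>
    rw [tr_succ X f i k hk]
    exact (hf k).comp ih

instance sys : DirectedSystem X (fun i j h => tr X f i j h) where
  map_self i x := by rw [tr_self]; rfl
  map_map k j i hij hjk x := tr_tr X f _ _ _ hij hjk x

/-- the limit -/
abbrev Lim : Type := DirectLimit X (tr X f)

/-- the maps into the limit -/
def inc (n : ℕ) : X n →* Lim X f where
  toFun x := ⟦⟨n, x⟩⟧
  map_one' := (DirectLimit.one_def (f := tr X f) n).symm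
  map_mul' x y := (DirectLimit.mul_def (f := tr X f) n x y).symm

theorem inc_inj (hf : ∀ n, Injective (f n)) (n : ℕ) : Injective (inc X f n) :=
  DirectLimit.mk_injective (f := tr X f) (fun i j h => tr_inj X f hf i j h) n

theorem inc_tr (i j : ℕ) (h : i ≤ j) (x : X i) : inc X f j (tr X f i j h x) = inc X f i x :=
  DirectLimit.mk_apply (f := tr X f) i j x h

theorem inc_succ (i : ℕ) (x : X i) : inc X f (i + 1) (f i x) = inc X f i x := by
  have h := inc_tr X f i (i + 1) (Nat.le_succ i) x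
  rw [tr_succ X f i i le_rfl, tr_self] at h
  exact h

theorem exists_stage {m : ℕ} (g : Fin m → Lim X f) : ∃ (N : ℕ) (g' : Fin m → X N),
    g = inc X f N ∘ g' := by
  have h : ∀ i, ∃ (n : ℕ) (x : X n), g i = inc X f n x := fun i => DirectLimit.exists_eq_mk _ (g i)
  choose N x hx using h
  refine ⟨∑ i, N i, fun i => tr X f (N i) _
    (Finset.single_le_sum (f := N) (fun i _ => Nat.zero_le _) (Finset.mem_univ i)) (x i), ?_⟩
  funext i
  exact (hx i).trans (inc_tr X f _ _ _ _).symm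

end limit

section

variable {C : ℕ → ℕ → Type}
  (Sat : ∀ (m n : ℕ), C m n → ∀ (K : Type) [Group K], (Fin m ⊕ Fin n → K) → Prop)

theorem exists_closed (hP : Persist Sat) (Γ : Type) [Group Γ] :
    ∃ (U : Type) (_ : Group U) (φ : Γ →* U), Injective φ ∧ ClosedG Sat U := by
  have hstep := fun (p : Σ T : Type, Group T) => @exists_step_group C Sat hP p.1 p.2
  choose E hE φ hφ hsol using hstep
  let Y : ℕ → Σ T : Type, Group T := fun n => Nat.rec ⟨Γ, inferInstance⟩
    (fun _ p => ⟨E p, hE p⟩) n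
  let X : ℕ → Type := fun n => (Y n).1
  let iX : ∀ n, Group (X n) := fun n => (Y n).2
  let f : ∀ n, X n →* X (n + 1) := fun n => φ (Y n)
  have hf : ∀ n, Injective (f n) := fun n => hφ (Y n)
  have hs : ∀ (N : ℕ) (m n : ℕ) (c : C m n) (g : Fin m → X N), Solv Sat c (X N) g →
      ∃ x : Fin n → X (N + 1), Sat m n c (X (N + 1)) (Sum.elim (f N ∘ g) x) := fun N => hsol (Y N)
  refine ⟨Lim X f, inferInstance, inc X f 0, inc_inj X f hf 0, ?_⟩
  intro m n c g hc
  obtain ⟨N, g', rfl⟩ := exists_stage X f g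
  obtain ⟨K, hK, ψ, hψ, x, hx⟩ := hc
  have h1 : Solv Sat c (X N) g' := ⟨K, hK, ψ.comp (inc X f N), hψ.comp (inc_inj X f hf N), x, hx⟩
  obtain ⟨y, hy⟩ := hs N m n c g' h1
  refine ⟨inc X f (N + 1) ∘ y, ?_⟩
  have h2 := hP m n c _ _ (inc X f (N + 1)) (inc_inj X f hf (N + 1)) _ hy
  rw [comp_sumElim] at h2
  have h3 : inc X f (N + 1) ∘ (f N ∘ g') = inc X f N ∘ g' := by
    funext i
    exact inc_succ X f N (g' i)
  rwa [h3] at h2

/-- the solvable conditions with parameters in `S` have solutions in `A` -/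
def Clo {U : Type} [Group U] (S : Subgroup U) (A : Set U) : Prop :=
  ∀ (m n : ℕ) (c : C m n) (g : Fin m → S), (∃ x : Fin n → U, Sat m n c U (Sum.elim (fun i => (g i : U)) x)) →
    ∃ x : Fin n → U, (∀ i, x i ∈ A) ∧ Sat m n c U (Sum.elim (fun i => (g i : U)) x)

theorem clo_mono {U : Type} [Group U] (S : Subgroup U) (A B : Set U) (h : A ⊆ B)
    (hA : Clo Sat S A) : Clo Sat S B := by
  intro m n c g hc
  obtain ⟨x, hx, hx'⟩ := hA m n c g hc
  exact ⟨x, fun i => h (hx i), hx'⟩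

theorem exists_clo [∀ m n, Countable (C m n)] {U : Type} [Group U] (S : Subgroup U)
    (hS : Countable S) : ∃ A : Set U, A.Countable ∧ Clo Sat S A := by
  classical
  let ι : Type := Σ q : ℕ × ℕ, C q.1 q.2 × (Fin q.1 → S)
  let P : ∀ i : ι, (Fin i.1.2 → U) → Prop := fun i x =>
    Sat i.1.1 i.1.2 i.2.1 U (Sum.elim (fun j => (i.2.2 j : U)) x)
  let w : ∀ i : ι, Fin i.1.2 → U := fun i => if h : ∃ x, P i x then Classical.choose h else 1
  have hw : ∀ i, (∃ x, P i x) → P i (w i) := by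
    intro i h
    show P i (if h : ∃ x, P i x then Classical.choose h else 1)
    rw [dif_pos h]
    exact Classical.choose_spec h
  refine ⟨⋃ i : ι, Set.range (w i), Set.countable_iUnion fun i => Set.countable_range _, ?_⟩
  intro m n c g hc
  let i : ι := ⟨(m, n), (c, g)⟩
  exact ⟨w i, fun j => Set.mem_iUnion.2 ⟨i, ⟨j, rfl⟩⟩, hw i hc⟩

theorem closedG_union (hP : Persist Sat) (hR : ∀ (m n : ℕ) (c : C m n) (K L : Type) [Group K]
    [Group L] (ψ : K →* L), Injective ψ → ∀ v : Fin m ⊕ Fin n → K, Sat m n c L (ψ ∘ v) →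
      Sat m n c K v) {U : Type} [Group U] (hU : ClosedG Sat U) (S : ℕ → Subgroup U)
    (hS : Monotone S) (hc : ∀ n, Clo Sat (S n) (S (n + 1))) : ClosedG Sat ↥(⨆ n, S n) := by
  intro m n c g hg
  obtain ⟨K, hK, φ, hφ, x, hx⟩ := hg
  obtain ⟨M, hM, α, β, hα, hβ, hαβ⟩ := exists_amalgam φ (⨆ n, S n).subtype hφ
    (Subgroup.subtype_injective _)
  have h1 := hP m n c _ _ α hα _ hx
  rw [comp_sumElim] at h1
  have h2 : α ∘ (φ ∘ g) = β ∘ (fun i => (g i : U)) := by
    funext i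
    exact hαβ (g i)
  rw [h2] at h1
  obtain ⟨y, hy⟩ := hU m n c (fun i => (g i : U)) ⟨M, hM, β, hβ, α ∘ x, h1⟩
  have hmem : ∀ u : U, u ∈ (⨆ n, S n) ↔ ∃ n, u ∈ S n := fun u =>
    Subgroup.mem_iSup_of_directed hS.directed_le
  have h3 : ∀ i, ∃ N, (g i : U) ∈ S N := fun i => (hmem _).1 (g i).2
  choose N hN using h3
  have h4 : ∀ i, (g i : U) ∈ S (∑ i, N i) := fun i =>
    hS (Finset.single_le_sum (f := N) (fun i _ => Nat.zero_le _) (Finset.mem_univ i)) (hN i)
  obtain ⟨z, hz, hz'⟩ := hc (∑ i, N i) m n c (fun i => ⟨g i, h4 i⟩) ⟨y, hy⟩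
  refine ⟨fun i => ⟨z i, (hmem _).2 ⟨_, hz i⟩⟩, hR m n c _ _ (⨆ n, S n).subtype
    (Subgroup.subtype_injective _) _ ?_⟩
  rw [comp_sumElim]
  exact hz'

end

/-! ### Systems of equations and inequations -/

/-- finite systems of equations and inequations in `m` parameters and `n` unknowns -/
abbrev Sys (m n : ℕ) : Type :=
  Finset (FreeGroup (Fin m ⊕ Fin n)) × Finset (FreeGroup (Fin m ⊕ Fin n))

/-- satisfaction of a system -/
def SatSys (m n : ℕ) (c : Sys m n) (K : Type) [Group K] (v : Fin m ⊕ Fin n → K) : Prop :=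
  (∀ w ∈ c.1, FreeGroup.lift v w = 1) ∧ ∀ w ∈ c.2, FreeGroup.lift v w ≠ 1

theorem lift_comp {V K L : Type} [Group K] [Group L] (ψ : K →* L) (v : V → K) (w : FreeGroup V) :
    FreeGroup.lift (ψ ∘ v) w = ψ (FreeGroup.lift v w) := by
  have h : FreeGroup.lift (ψ ∘ v) = ψ.comp (FreeGroup.lift v) := by
    ext i
    simp
  rw [h]
  rfl

theorem satSys_iff (m n : ℕ) (c : Sys m n) (K L : Type) [Group K] [Group L] (ψ : K →* L)
    (hψ : Injective ψ) (v : Fin m ⊕ Fin n → K) : SatSys m n c L (ψ ∘ v) ↔ SatSys m n c K v := by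
  unfold SatSys
  simp only [lift_comp]
  have h : ∀ k : K, ψ k = 1 ↔ k = 1 := fun k => map_eq_one_iff ψ hψ
  simp only [ne_eq, h]

/-- `G` is existentially closed -/
def IsEC (G : Type) [Group G] : Prop :=
  ∀ (m n : ℕ) (E I : Finset (FreeGroup (Fin m ⊕ Fin n))) (g : Fin m → G),
    (∃ (K : Type) (_ : Group K) (φ : G →* K), Function.Injective φ ∧ ∃ x : Fin n → K,
      (∀ w ∈ E, FreeGroup.lift (Sum.elim (φ ∘ g) x) w = 1) ∧
        ∀ w ∈ I, FreeGroup.lift (Sum.elim (φ ∘ g) x) w ≠ 1) →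
    ∃ x : Fin n → G, (∀ w ∈ E, FreeGroup.lift (Sum.elim g x) w = 1) ∧
      ∀ w ∈ I, FreeGroup.lift (Sum.elim g x) w ≠ 1

theorem isEC_iff (G : Type) [Group G] : IsEC G ↔ ClosedG SatSys G :=
  ⟨fun h m n c g hc => h m n c.1 c.2 g hc, fun h m n E I g hc => h m n (E, I) g hc⟩

theorem persist_sys : Persist SatSys := fun m n c K L _ _ ψ hψ v h =>
  (satSys_iff m n c K L ψ hψ v).2 h

/-! ### Coding sets of integers -/

/-- a set of integers coded by three elements of a group -/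
def Codes {K : Type} [Group K] (x y z : K) (T : Set ℤ) : Prop :=
  ∀ k : ℤ, Commute (x ^ k * y * (x ^ k)⁻¹) z ↔ k ∉ T

theorem codes_unique {K : Type} [Group K] (x y z : K) (T T' : Set ℤ) (h : Codes x y z T)
    (h' : Codes x y z T') : T = T' := by
  ext k
  have h1 := (h k).symm.trans (h' k)
  tauto

theorem exists_not_coded (K : Type) [Group K] [Countable K] :
    ∃ T : Set ℤ, ∀ x y z : K, ¬ Codes x y z T := by
  by_contra hcon
  push Not at hcon
  choose x y z h using hcon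
  have hinj : Injective fun T => (x T, y T, z T) := by
    intro T T' hT
    simp only [Prod.mk.injEq] at hT
    refine codes_unique (x T) (y T) (z T) T T' (h T) ?_
    rw [hT.1, hT.2.1, hT.2.2]
    exact h T'
  have hc : Countable (Set ℤ) := hinj.countable
  obtain ⟨e, he⟩ := exists_injective_nat (Set ℤ)
  refine Function.cantor_injective (fun T : Set ℤ => (e T : ℤ)) fun T T' hTT => he ?_
  have h1 : (e T : ℤ) = (e T' : ℤ) := hTT
  exact_mod_cast h1

theorem codes_map {K L : Type} [Group K] [Group L] (ψ : K →* L) (hψ : Injective ψ) (x y z : K)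
    (T : Set ℤ) : Codes (ψ x) (ψ y) (ψ z) T ↔ Codes x y z T := by
  refine forall_congr' fun k => iff_congr ?_ Iff.rfl
  rw [← map_zpow, ← map_inv, ← map_mul, ← map_mul]
  refine ⟨fun h => hψ ?_, fun h => h.map ψ⟩
  have h' := h.eq
  rw [← map_mul, ← map_mul] at h'
  exact h'

/-- the big permutation group -/
abbrev PP : Type := Equiv.Perm (ℤ × Fin 3)

/-- translation by `k` -/
def aa (k : ℤ) : PP where
  toFun p := (p.1 + k, p.2)
  invFun p := (p.1 - k, p.2)
  left_inv p := by simp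
  right_inv p := by simp

theorem aa_pow (k : ℤ) : (aa 1) ^ k = aa k := by
  have h0 : aa 0 = 1 := by
    ext p <;> simp [aa]
  have hadd : ∀ i j, aa i * aa j = aa (i + j) := by
    intro i j
    ext p
    · simp only [aa, Equiv.Perm.coe_mul, Function.comp_apply, Equiv.coe_fn_mk]
      ring
    · simp [aa]
  have hneg : ∀ i, (aa i)⁻¹ = aa (-i) := by
    intro i
    rw [inv_eq_iff_mul_eq_one, hadd, add_neg_cancel, h0]
  induction k using Int.induction_on with
  | zero => rw [zpow_zero, h0]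
  | succ n ih => rw [zpow_add_one, ih, hadd]
  | pred n ih => rw [zpow_sub_one, ih, hneg, hadd]; rfl

open Classical in
/-- the fibrewise transposition `σ` over the set `T` -/
noncomputable def bb (σ : Equiv.Perm (Fin 3)) (hσ : ∀ j, σ (σ j) = j) (T : Set ℤ) : PP where
  toFun p := (p.1, if p.1 ∈ T then σ p.2 else p.2)
  invFun p := (p.1, if p.1 ∈ T then σ p.2 else p.2)
  left_inv p := by
    by_cases h : p.1 ∈ T
    · simp [h, hσ]
    · simp [h]
  right_inv p := by
    by_cases h : p.1 ∈ T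
    · simp [h, hσ]
    · simp [h]

theorem bb_mem (σ : Equiv.Perm (Fin 3)) (hσ : ∀ j, σ (σ j) = j) (T : Set ℤ) (p : ℤ × Fin 3)
    (h : p.1 ∈ T) : bb σ hσ T p = (p.1, σ p.2) :=
  congrArg (Prod.mk p.1) (if_pos h)

theorem bb_notMem (σ : Equiv.Perm (Fin 3)) (hσ : ∀ j, σ (σ j) = j) (T : Set ℤ) (p : ℤ × Fin 3)
    (h : p.1 ∉ T) : bb σ hσ T p = p :=
  congrArg (Prod.mk p.1) (if_neg h)

theorem codes_perm (T : Set ℤ) : ∃ x y z : PP, Codes x y z T := by
  have h01 : ∀ j, (Equiv.swap (0 : Fin 3) 1) ((Equiv.swap (0 : Fin 3) 1) j) = j := by decide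
  have h12 : ∀ j, (Equiv.swap (1 : Fin 3) 2) ((Equiv.swap (1 : Fin 3) 2) j) = j := by decide
  refine ⟨aa 1, bb _ h01 {i | -i ∈ T}, bb _ h12 {0}, ?_⟩
  intro k
  have hinv : ∀ p : ℤ × Fin 3, (aa k)⁻¹ p = (p.1 - k, p.2) := fun p => rfl
  have haa : ∀ p : ℤ × Fin 3, aa k p = (p.1 + k, p.2) := fun p => rfl
  have hm : ∀ p : ℤ × Fin 3, p.1 - k ∈ {i : ℤ | -i ∈ T} ↔ k - p.1 ∈ T := by
    intro p
    show -(p.1 - k) ∈ T ↔ k - p.1 ∈ T
    rw [neg_sub]
  have hconj1 : ∀ p : ℤ × Fin 3, k - p.1 ∈ T →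
      (aa 1 ^ k * bb _ h01 {i | -i ∈ T} * (aa 1 ^ k)⁻¹) p = (p.1, (Equiv.swap (0 : Fin 3) 1) p.2) := by
    intro p hp
    rw [aa_pow, Equiv.Perm.mul_apply, Equiv.Perm.mul_apply, hinv, bb_mem _ _ _ _ ((hm p).2 hp), haa]
    simp
  have hconj0 : ∀ p : ℤ × Fin 3, k - p.1 ∉ T →
      (aa 1 ^ k * bb _ h01 {i | -i ∈ T} * (aa 1 ^ k)⁻¹) p = p := by
    intro p hp
    rw [aa_pow, Equiv.Perm.mul_apply, Equiv.Perm.mul_apply, hinv,
      bb_notMem _ _ _ _ (fun h => hp ((hm p).1 h)), haa]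
    simp
  have hc1 : ∀ p : ℤ × Fin 3, p.1 = 0 →
      (bb _ h12 {0}) p = (p.1, (Equiv.swap (1 : Fin 3) 2) p.2) := fun p hp => bb_mem _ _ _ _ hp
  have hc0 : ∀ p : ℤ × Fin 3, p.1 ≠ 0 → (bb _ h12 {0}) p = p := fun p hp => bb_notMem _ _ _ _ hp
  constructor
  · intro hcomm hk
    have h1 : (aa 1 ^ k * bb _ h01 {i | -i ∈ T} * (aa 1 ^ k)⁻¹) ((bb _ h12 {0}) (0, 0)) =
        (bb _ h12 {0}) ((aa 1 ^ k * bb _ h01 {i | -i ∈ T} * (aa 1 ^ k)⁻¹) (0, 0)) :=
      congrArg (fun q : PP => q (0, 0)) hcomm.eq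
    rw [hc1 (0, 0) rfl, hconj1 _ (by simpa using hk), hconj1 _ (by simpa using hk), hc1 _ rfl] at h1
    have h2 := congrArg Prod.snd h1
    revert h2
    decide
  · intro hk
    refine Equiv.ext fun p => ?_
    show (aa 1 ^ k * bb _ h01 {i | -i ∈ T} * (aa 1 ^ k)⁻¹) ((bb _ h12 {0}) p) =
      (bb _ h12 {0}) ((aa 1 ^ k * bb _ h01 {i | -i ∈ T} * (aa 1 ^ k)⁻¹) p)
    by_cases hp : p.1 = 0
    · have h2 : k - p.1 ∉ T := by rw [hp, sub_zero]; exact hk
      rw [hconj0 p h2, hc1 p hp]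
      exact hconj0 (p.1, _) h2
    · rw [hc0 p hp]
      by_cases h2 : k - p.1 ∈ T
      · rw [hconj1 p h2]
        exact (hc0 (p.1, (Equiv.swap (0 : Fin 3) 1) p.2) hp).symm
      · rw [hconj0 p h2, hc0 p hp]

end Pool.Agent.Q150.EG
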