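import Mathlib
import Pool.Agent.Q301.VN.Los

/-!
Formulas of the continuous logic of tracial von Neumann algebras: uniform continuity in the 2-norm on
bounded sets, and a countable family of functions which approximates all formulas.
-/

set_option autoImplicit false
set_option linter.unusedSectionVars false

open scoped Topology
open Filter

namespace Pool.Agent.Q150.EG

open Pool.Agent.Helper278
open Pool.Agent.Q301.VN
open Pool.Agent.H504R3 hiding Tm Fm
open Pool.Agent.H504R3.S (str Str Tm Fm tval)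

variable (M : TVN)

theorem n2_le_opNorm (x : M.E) : M.norm2 x ≤ M.opNorm x := by
  have h2 := (M.n2_mul_le x 1).1
  rw [mul_one, n2_one M.trAlg, mul_one] at h2
  exact h2

theorem norm_tr_le2 (x : M.E) : ‖M.τ x‖ ≤ M.norm2 x := by
  have h1 := M.trAlg.cauchy' x 1
  rw [mul_one, n2_one M.trAlg, mul_one] at h1
  exact h1

theorem tm_lip {n : ℕ} (t : Tm (Fin n)) (R : ℝ) : ∃ L : ℝ, 0 ≤ L ∧
    ∀ x y : Fin n → M.E, (∀ i, M.opNorm (x i) ≤ R) → (∀ i, M.opNorm (y i) ≤ R) →
      ∀ d : ℝ, 0 ≤ d → (∀ i, M.norm2 (x i - y i) ≤ d) →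
        M.norm2 (tval M x t - tval M y t) ≤ L * d := by
  have hT := M.trAlg
  induction t with
  | var v => exact ⟨1, zero_le_one, fun x y _ _ d _ h => by rw [one_mul]; exact h v⟩
  | one => exact ⟨0, le_rfl, fun x y _ _ d _ _ => by
      show M.norm2 ((1 : M.E) - 1) ≤ _
      rw [sub_self, zero_mul]
      exact hT.n2_zero.le⟩
  | add s t hs ht =>
    obtain ⟨C, hC, hs⟩ := hs
    obtain ⟨D, hD, ht⟩ := ht
    refine ⟨C + D, by positivity, fun x y hx hy d hd h => ?_⟩
    have h1 := hs x y hx hy d hd h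
    have h2 := ht x y hx hy d hd h
    have e : tval M x (s.add t) - tval M y (s.add t) =
        (tval M x s - tval M y s) + (tval M x t - tval M y t) := by
      show (tval M x s + tval M x t) - (tval M y s + tval M y t) = _
      abel
    rw [e]
    refine (hT.n2_add_le _ _).trans ?_
    have h1' : n2 M.τ (tval M x s - tval M y s) ≤ C * d := h1
    have h2' : n2 M.τ (tval M x t - tval M y t) ≤ D * d := h2
    linarith
  | mul s t hs ht =>
    obtain ⟨C, hC, hs⟩ := hs
    obtain ⟨D, hD, ht⟩ := ht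
    obtain ⟨A, hA, hA'⟩ := tval_bdd s R
    obtain ⟨B, hB, hB'⟩ := tval_bdd t R
    refine ⟨A * D + C * B, by positivity, fun x y hx hy d hd h => ?_⟩
    have h1 : n2 M.τ (tval M x s - tval M y s) ≤ C * d := hs x y hx hy d hd h
    have h2 : n2 M.τ (tval M x t - tval M y t) ≤ D * d := ht x y hx hy d hd h
    have e : tval M x (s.mul t) - tval M y (s.mul t) =
        tval M x s * (tval M x t - tval M y t) + (tval M x s - tval M y s) * tval M y t := by
      show (tval M x s * tval M x t) - (tval M y s * tval M y t) = _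
      noncomm_ring
    rw [e]
    refine (hT.n2_add_le _ _).trans ?_
    have h3 := (M.n2_mul_le (tval M x s) (tval M x t - tval M y t)).1
    have h4 := (M.n2_mul_le (tval M y t) (tval M x s - tval M y s)).2
    have h5 := hA' M x hx
    have h6 := hB' M y hy
    have h7 := n2_nonneg M.τ (tval M x t - tval M y t)
    have h8 := n2_nonneg M.τ (tval M x s - tval M y s)
    have h9 : M.opNorm (tval M x s) * n2 M.τ (tval M x t - tval M y t) ≤ A * (D * d) :=
      mul_le_mul h5 h2 h7 hA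
    have h10 : n2 M.τ (tval M x s - tval M y s) * M.opNorm (tval M y t) ≤ (C * d) * B :=
      mul_le_mul h1 h6 (opNorm_nonneg M _) (by positivity)
    nlinarith
  | adj s hs =>
    obtain ⟨C, hC, hs⟩ := hs
    refine ⟨C, hC, fun x y hx hy d hd h => ?_⟩
    have e : tval M x s.adj - tval M y s.adj = star (tval M x s - tval M y s) := by
      rw [star_sub]; rfl
    rw [e]
    exact (hT.n2_star _).le.trans (hs x y hx hy d hd h)
  | scal c s hs =>
    obtain ⟨C, hC, hs⟩ := hs
    refine ⟨‖c‖ * C, by positivity, fun x y hx hy d hd h => ?_⟩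
    have e : tval M x (s.scal c) - tval M y (s.scal c) = c • (tval M x s - tval M y s) := by
      rw [smul_sub]; rfl
    rw [e]
    refine (n2_smul hT c _).le.trans ?_
    rw [mul_assoc]
    exact mul_le_mul_of_nonneg_left (hs x y hx hy d hd h) (norm_nonneg c)

theorem abs_sup_sub {ι : Type} [Nonempty ι] (f g : ι → ℝ) (ε C : ℝ) (hf : ∀ i, |f i| ≤ C)
    (h : ∀ i, |f i - g i| ≤ ε) : |(⨆ i, f i) - ⨆ i, g i| ≤ ε := by
  have bf : BddAbove (Set.range f) := ⟨C, by rintro _ ⟨i, rfl⟩; exact (abs_le.1 (hf i)).2⟩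
  have bg : BddAbove (Set.range g) := ⟨C + ε, by
    rintro _ ⟨i, rfl⟩
    have h1 := (abs_le.1 (hf i)).2
    have h2 := (abs_le.1 (h i)).1
    linarith⟩
  rw [abs_le]
  constructor
  · have : (⨆ i, g i) ≤ (⨆ i, f i) + ε := ciSup_le fun i => by
      have h1 := le_ciSup bf i
      have h2 := (abs_le.1 (h i)).1
      linarith
    linarith
  · have : (⨆ i, f i) ≤ (⨆ i, g i) + ε := ciSup_le fun i => by
      have h1 := le_ciSup bg i
      have h2 := (abs_le.1 (h i)).2
      linarith
    linarith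

theorem abs_inf_sub {ι : Type} [Nonempty ι] (f g : ι → ℝ) (ε C : ℝ) (hf : ∀ i, |f i| ≤ C)
    (h : ∀ i, |f i - g i| ≤ ε) : |(⨅ i, f i) - ⨅ i, g i| ≤ ε := by
  have bf : BddBelow (Set.range f) := ⟨-C, by rintro _ ⟨i, rfl⟩; exact (abs_le.1 (hf i)).1⟩
  have bg : BddBelow (Set.range g) := ⟨-C - ε, by
    rintro _ ⟨i, rfl⟩
    have h1 := (abs_le.1 (hf i)).1
    have h2 := (abs_le.1 (h i)).2
    linarith⟩
  rw [abs_le]
  constructor
  · have : (⨅ i, g i) - ε ≤ ⨅ i, f i := le_ciInf fun i => by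
      have h1 := ciInf_le bg i
      have h2 := (abs_le.1 (h i)).1
      linarith
    linarith
  · have : (⨅ i, f i) - ε ≤ ⨅ i, g i := le_ciInf fun i => by
      have h1 := ciInf_le bf i
      have h2 := (abs_le.1 (h i)).2
      linarith
    linarith

theorem unif_conn {k : ℕ} (u : C(Fin k → ℝ, ℝ)) (C : ℝ) (ε : ℝ) (hε : 0 < ε) :
    ∃ δ : ℝ, 0 < δ ∧ ∀ a c : Fin k → ℝ, (∀ i, |a i| ≤ C) → (∀ i, |c i| ≤ C) →
      (∀ i, |a i - c i| ≤ δ) → |u a - u c| ≤ ε := by
  have hK : IsCompact (Set.univ.pi fun _ : Fin k => Set.Icc (-C) C) :=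
    isCompact_univ_pi fun i => isCompact_Icc
  have h1 := hK.uniformContinuousOn_of_continuous u.continuous.continuousOn
  rw [Metric.uniformContinuousOn_iff] at h1
  obtain ⟨δ, hδ, h⟩ := h1 ε hε
  refine ⟨δ / 2, by linarith, fun a c ha hc hac => ?_⟩
  have h2 := h a (fun i _ => abs_le.1 (ha i)) c (fun i _ => abs_le.1 (hc i)) (by
    refine (dist_pi_lt_iff hδ).2 fun i => ?_
    rw [Real.dist_eq]
    exact (hac i).trans_lt (by linarith))
  rw [Real.dist_eq] at h2
  exact h2.le

theorem cons_bdd {n : ℕ} {x : Fin n → M.E} {R : ℝ} (hx : ∀ i, M.opNorm (x i) ≤ R) {r : ℕ}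
    (y : (str M).Ball r) (i : Fin (n + 1)) :
    M.opNorm ((Fin.cons y.1 x : Fin (n + 1) → M.E) i) ≤ max R r := by
  refine Fin.cases ?_ (fun j => ?_) i
  · exact y.2.trans (le_max_right _ _)
  · exact (hx j).trans (le_max_left _ _)

/-- formulas are uniformly continuous on bounded sets -/
theorem fm_unif {n : ℕ} (φ : Fm n) : ∀ R ε : ℝ, 0 < ε → ∃ δ : ℝ, 0 < δ ∧
    ∀ x y : Fin n → M.E, (∀ i, M.opNorm (x i) ≤ R) → (∀ i, M.opNorm (y i) ≤ R) →
      (∀ i, M.norm2 (x i - y i) ≤ δ) → |φ.val (str M) x - φ.val (str M) y| ≤ ε := by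
  have hT := M.trAlg
  have tm : ∀ {n : ℕ} (t : Tm (Fin n)) (R ε : ℝ), 0 < ε → ∃ δ : ℝ, 0 < δ ∧
      ∀ x y : Fin n → M.E, (∀ i, M.opNorm (x i) ≤ R) → (∀ i, M.opNorm (y i) ≤ R) →
      (∀ i, M.norm2 (x i - y i) ≤ δ) → M.norm2 (tval M x t - tval M y t) ≤ ε := by
    intro n t R ε hε
    obtain ⟨L, hL, h⟩ := tm_lip M t R
    refine ⟨ε / (L + 1), by positivity, fun x y hx hy hd => ?_⟩
    refine (h x y hx hy _ (by positivity) hd).trans ?_
    rw [mul_div_assoc', div_le_iff₀ (by positivity)]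
    nlinarith
  induction φ with
  | re t =>
    intro R ε hε
    obtain ⟨δ, hδ, h⟩ := tm t R ε hε
    refine ⟨δ, hδ, fun x y hx hy hd => ?_⟩
    show |(M.τ (tval M x t)).re - (M.τ (tval M y t)).re| ≤ ε
    rw [← Complex.sub_re, ← map_sub]
    exact (Complex.abs_re_le_norm _).trans ((norm_tr_le2 M _).trans (h x y hx hy hd))
  | im t =>
    intro R ε hε
    obtain ⟨δ, hδ, h⟩ := tm t R ε hε
    refine ⟨δ, hδ, fun x y hx hy hd => ?_⟩
    show |(M.τ (tval M x t)).im - (M.τ (tval M y t)).im| ≤ ε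
    rw [← Complex.sub_im, ← map_sub]
    exact (Complex.abs_im_le_norm _).trans ((norm_tr_le2 M _).trans (h x y hx hy hd))
  | nrm t =>
    intro R ε hε
    obtain ⟨δ, hδ, h⟩ := tm t R ε hε
    refine ⟨δ, hδ, fun x y hx hy hd => ?_⟩
    have h0 : n2 M.τ (tval M x t - tval M y t) ≤ ε := h x y hx hy hd
    show |n2 M.τ (tval M x t) - n2 M.τ (tval M y t)| ≤ ε
    have h1 := hT.n2_add_le (tval M x t - tval M y t) (tval M y t)
    have h2 := hT.n2_add_le (tval M y t - tval M x t) (tval M x t)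
    rw [sub_add_cancel] at h1 h2
    rw [hT.n2_sub_comm] at h2
    rw [abs_le]
    constructor <;> linarith
  | @conn n k u φ ih =>
    intro R ε hε
    choose C hC hb using fun i => fval_bdd (φ i) R
    obtain ⟨δ, hδ, h⟩ := unif_conn u (∑ i, C i) ε hε
    choose δ' hδ' h' using fun i => ih i R δ hδ
    have hCi : ∀ i, C i ≤ ∑ i, C i := fun i =>
      Finset.single_le_sum (f := C) (fun i _ => hC i) (Finset.mem_univ i)
    by_cases hk : Nonempty (Fin k)
    · refine ⟨Finset.univ.inf' Finset.univ_nonempty δ', ?_, fun x y hx hy hd => ?_⟩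
      · rw [Finset.lt_inf'_iff]
        exact fun i _ => hδ' i
      · show |u (fun i => (φ i).val (str M) x) - u (fun i => (φ i).val (str M) y)| ≤ ε
        exact h _ _ (fun i => (hb i M x hx).trans (hCi i)) (fun i => (hb i M y hy).trans (hCi i))
          fun i => h' i x y hx hy fun j => (hd j).trans (Finset.inf'_le _ (Finset.mem_univ i))
    · refine ⟨1, one_pos, fun x y hx hy hd => ?_⟩
      show |u (fun i => (φ i).val (str M) x) - u (fun i => (φ i).val (str M) y)| ≤ ε
      exact h _ _ (fun i => absurd ⟨i⟩ hk) (fun i => absurd ⟨i⟩ hk) fun i => absurd ⟨i⟩ hk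
  | sup r φ ih =>
    intro R ε hε
    obtain ⟨δ, hδ, h⟩ := ih (max R r) ε hε
    obtain ⟨C, hC⟩ := ball_vals φ r R
    refine ⟨δ, hδ, fun x y hx hy hd => ?_⟩
    have := S.ball_ne M r
    refine abs_sup_sub _ _ ε C (fun z => hC M x hx z) fun z => ?_
    refine h _ _ (cons_bdd M hx z) (cons_bdd M hy z) fun i => ?_
    refine Fin.cases ?_ (fun j => ?_) i
    · have e : ∀ w : M.E, M.norm2 (w - w) ≤ δ := fun w => by
        rw [sub_self]
        exact hT.n2_zero.le.trans hδ.le
      exact e z.1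
    · exact hd j
  | inf r φ ih =>
    intro R ε hε
    obtain ⟨δ, hδ, h⟩ := ih (max R r) ε hε
    obtain ⟨C, hC⟩ := ball_vals φ r R
    refine ⟨δ, hδ, fun x y hx hy hd => ?_⟩
    have := S.ball_ne M r
    refine abs_inf_sub _ _ ε C (fun z => hC M x hx z) fun z => ?_
    refine h _ _ (cons_bdd M hx z) (cons_bdd M hy z) fun i => ?_
    refine Fin.cases ?_ (fun j => ?_) i
    · have e : ∀ w : M.E, M.norm2 (w - w) ≤ δ := fun w => by
        rw [sub_self]
        exact hT.n2_zero.le.trans hδ.le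
      exact e z.1
    · exact hd j

/-! ### the countable family -/

/-- functions given by terms with coefficients in a countable set, by depth -/
def TS : ℕ → (n : ℕ) → Set ((Fin n → M.E) → M.E)
  | 0, n => Set.range (fun (i : Fin n) (x : Fin n → M.E) => x i) ∪ {fun _ => 1}
  | d + 1, n => TS d n ∪ Set.image2 (fun f g x => f x + g x) (TS d n) (TS d n) ∪
      Set.image2 (fun f g x => f x * g x) (TS d n) (TS d n) ∪
      (fun f x => star (f x)) '' TS d n ∪
      Set.image2 (fun (c : ℕ) f x => TopologicalSpace.denseSeq ℂ c • f x) Set.univ (TS d n)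

theorem TS_count : ∀ (d n : ℕ), (TS M d n).Countable
  | 0, n => (Set.countable_range _).union (Set.countable_singleton _)
  | d + 1, n => by
    have h := TS_count d n
    exact ((((h.union (h.image2 h _)).union (h.image2 h _)).union (h.image _)).union
      (Set.countable_univ.image2 h _))

theorem TS_mono {n : ℕ} {d e : ℕ} (h : d ≤ e) : TS M d n ⊆ TS M e n := by
  induction h with
  | refl => exact subset_rfl
  | step _ ih => exact ih.trans fun x hx => Or.inl (Or.inl (Or.inl (Or.inl hx)))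

theorem TS_approx {n : ℕ} (t : Tm (Fin n)) : ∀ R ε : ℝ, 0 < ε → ∃ d, ∃ s ∈ TS M d n,
    ∀ x : Fin n → M.E, (∀ i, M.opNorm (x i) ≤ R) → M.opNorm (tval M x t - s x) ≤ ε := by
  induction t with
  | var v =>
    intro R ε hε
    refine ⟨0, fun x => x v, Or.inl ⟨v, rfl⟩, fun x _ => ?_⟩
    show M.opNorm (x v - x v) ≤ ε
    rw [sub_self, S.opNorm_zero]
    exact hε.le
  | one =>
    intro R ε hε
    refine ⟨0, fun x => 1, Or.inr rfl, fun x _ => ?_⟩
    show M.opNorm ((1 : M.E) - 1) ≤ ε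
    rw [sub_self, S.opNorm_zero]
    exact hε.le
  | add s t hs ht =>
    intro R ε hε
    obtain ⟨d, f, hf, h1⟩ := hs R (ε / 2) (by linarith)
    obtain ⟨e, g, hg, h2⟩ := ht R (ε / 2) (by linarith)
    refine ⟨max d e + 1, fun x => f x + g x, Or.inl (Or.inl (Or.inl (Or.inr
      ⟨f, TS_mono M (le_max_left _ _) hf, g, TS_mono M (le_max_right _ _) hg, rfl⟩))),
      fun x hx => ?_⟩
    have e1 : tval M x (s.add t) - (f x + g x) = (tval M x s - f x) + (tval M x t - g x) := by
      show tval M x s + tval M x t - (f x + g x) = _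
      abel
    rw [e1]
    refine (opNorm_add M _ _).trans ?_
    have := h1 x hx
    have := h2 x hx
    linarith
  | mul s t hs ht =>
    intro R ε hε
    obtain ⟨A, hA, hA'⟩ := tval_bdd s R
    obtain ⟨B, hB, hB'⟩ := tval_bdd t R
    set δ := min 1 (ε / (A + B + 1)) with hδ
    have hδ0 : 0 < δ := lt_min one_pos (by positivity)
    obtain ⟨d, f, hf, h1⟩ := hs R δ hδ0
    obtain ⟨e, g, hg, h2⟩ := ht R δ hδ0
    refine ⟨max d e + 1, fun x => f x * g x, Or.inl (Or.inl (Or.inr
      ⟨f, TS_mono M (le_max_left _ _) hf, g, TS_mono M (le_max_right _ _) hg, rfl⟩)),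
      fun x hx => ?_⟩
    have e1 : tval M x (s.mul t) - (f x * g x) =
        (tval M x s - f x) * tval M x t + f x * (tval M x t - g x) := by
      show tval M x s * tval M x t - (f x * g x) = _
      noncomm_ring
    rw [e1]
    refine (opNorm_add M _ _).trans ?_
    have i1 := h1 x hx
    have i2 := h2 x hx
    have i3 := hA' M x hx
    have i4 := hB' M x hx
    have i5 : M.opNorm (f x) ≤ A + 1 := by
      have e3 := opNorm_add M (tval M x s) (-(tval M x s - f x))
      have e4 : tval M x s + -(tval M x s - f x) = f x := by abel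
      rw [e4] at e3
      have e5 : M.opNorm (-(tval M x s - f x)) = M.opNorm (tval M x s - f x) :=
        norm_neg ((tval M x s - f x : M.E) : M.H →L[ℂ] M.H)
      rw [e5] at e3
      have := min_le_left 1 (ε / (A + B + 1))
      linarith
    have i6 := opNorm_mul M (tval M x s - f x) (tval M x t)
    have i7 := opNorm_mul M (f x) (tval M x t - g x)
    have j1 : M.opNorm (tval M x s - f x) * M.opNorm (tval M x t) ≤ δ * B :=
      mul_le_mul i1 i4 (opNorm_nonneg M _) hδ0.le
    have j2 : M.opNorm (f x) * M.opNorm (tval M x t - g x) ≤ (A + 1) * δ :=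
      mul_le_mul i5 i2 (opNorm_nonneg M _) (by positivity)
    have j3 : δ * (A + B + 1) ≤ ε := by
      have := min_le_right 1 (ε / (A + B + 1))
      rw [← hδ, le_div_iff₀ (by positivity)] at this
      exact this
    nlinarith
  | adj s hs =>
    intro R ε hε
    obtain ⟨d, f, hf, h1⟩ := hs R ε hε
    refine ⟨d + 1, fun x => star (f x), Or.inl (Or.inr ⟨f, hf, rfl⟩), fun x hx => ?_⟩
    have e1 : tval M x s.adj - star (f x) = star (tval M x s - f x) := by
      rw [star_sub]; rfl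
    rw [e1, opNorm_star]
    exact h1 x hx
  | scal c s hs =>
    intro R ε hε
    obtain ⟨A, hA, hA'⟩ := tval_bdd s R
    have hpos : 0 < ε / (2 * (A + 1)) := by positivity
    obtain ⟨_, ⟨k, rfl⟩, hk⟩ := Metric.denseRange_iff.1 (TopologicalSpace.denseRange_denseSeq ℂ) c _
      hpos |> fun ⟨k, hk⟩ => (⟨_, ⟨k, rfl⟩, hk⟩ : ∃ q, (∃ k, TopologicalSpace.denseSeq ℂ k = q) ∧
        dist c q < ε / (2 * (A + 1)))
    set q := TopologicalSpace.denseSeq ℂ k with hq
    obtain ⟨d, f, hf, h1⟩ := hs R (ε / (2 * (‖q‖ + 1))) (by positivity)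
    refine ⟨d + 1, fun x => q • f x, Or.inr ⟨k, Set.mem_univ _, f, hf, rfl⟩, fun x hx => ?_⟩
    have e1 : tval M x (s.scal c) - q • f x = (c - q) • tval M x s + q • (tval M x s - f x) := by
      show c • tval M x s - q • f x = _
      rw [sub_smul, smul_sub]
      abel
    rw [e1]
    refine (opNorm_add M _ _).trans ?_
    rw [opNorm_smul, opNorm_smul]
    have i1 := hA' M x hx
    have i2 := h1 x hx
    rw [dist_eq_norm] at hk
    have j1 : ‖c - q‖ * M.opNorm (tval M x s) ≤ ε / 2 := by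
      have : ‖c - q‖ * M.opNorm (tval M x s) ≤ (ε / (2 * (A + 1))) * A :=
        mul_le_mul hk.le i1 (opNorm_nonneg M _) (by positivity)
      refine this.trans ?_
      rw [div_mul_eq_mul_div, div_le_div_iff₀ (by positivity) (by positivity)]
      nlinarith
    have j2 : ‖q‖ * M.opNorm (tval M x s - f x) ≤ ε / 2 := by
      have hq0 := norm_nonneg q
      have : ‖q‖ * M.opNorm (tval M x s - f x) ≤ ‖q‖ * (ε / (2 * (‖q‖ + 1))) :=
        mul_le_mul_of_nonneg_left i2 hq0
      refine this.trans ?_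
      rw [mul_div_assoc', div_le_div_iff₀ (by positivity) (by positivity)]
      nlinarith
    linarith

/-- functions given by formulas with connectives from a countable set, by depth -/
noncomputable def FS : ℕ → (n : ℕ) → Set ((Fin n → M.E) → ℝ)
  | 0, n => (⋃ d, (fun s x => (M.τ (s x)).re) '' TS M d n) ∪
      (⋃ d, (fun s x => (M.τ (s x)).im) '' TS M d n) ∪ (⋃ d, (fun s x => M.norm2 (s x)) '' TS M d n)
  | d + 1, n => FS d n ∪ (⋃ k : ℕ, ⋃ m : ℕ,
      (fun (f : Fin k → (Fin n → M.E) → ℝ) x =>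
        TopologicalSpace.denseSeq C(Fin k → ℝ, ℝ) m (fun i => f i x)) ''
        (Set.univ.pi fun _ => FS d n)) ∪
      (⋃ r : ℕ, (fun f x => ⨆ y : (str M).Ball r, f (Fin.cons y.1 x)) '' FS d (n + 1)) ∪
      (⋃ r : ℕ, (fun f x => ⨅ y : (str M).Ball r, f (Fin.cons y.1 x)) '' FS d (n + 1))

theorem FS_count : ∀ (d n : ℕ), (FS M d n).Countable
  | 0, n => ((Set.countable_iUnion fun d => (TS_count M d n).image _).union
      (Set.countable_iUnion fun d => (TS_count M d n).image _)).union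
      (Set.countable_iUnion fun d => (TS_count M d n).image _)
  | d + 1, n => by
    have h := FS_count d n
    have h' := FS_count d (n + 1)
    refine (((h.union (Set.countable_iUnion fun k => Set.countable_iUnion fun m =>
      Set.Countable.image ?_ _)).union (Set.countable_iUnion fun r => h'.image _)).union
      (Set.countable_iUnion fun r => h'.image _))
    exact Set.countable_univ_pi fun _ => h

theorem FS_mono {n : ℕ} {d e : ℕ} (h : d ≤ e) : FS M d n ⊆ FS M e n := by
  induction h with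
  | refl => exact subset_rfl
  | step _ ih => exact ih.trans fun x hx => Or.inl (Or.inl (Or.inl hx))

theorem dense_conn {k : ℕ} (u : C(Fin k → ℝ, ℝ)) (C ε : ℝ) (hε : 0 < ε) : ∃ m : ℕ,
    ∀ a : Fin k → ℝ, (∀ i, |a i| ≤ C) →
      |u a - TopologicalSpace.denseSeq C(Fin k → ℝ, ℝ) m a| ≤ ε := by
  have hK : IsCompact (Set.univ.pi fun _ : Fin k => Set.Icc (-C) C) :=
    isCompact_univ_pi fun i => isCompact_Icc
  have h1 : u ∈ closure (Set.range (TopologicalSpace.denseSeq C(Fin k → ℝ, ℝ))) :=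
    TopologicalSpace.denseRange_denseSeq _ u
  obtain ⟨v, hv, hvu⟩ := mem_closure_iff_seq_limit.1 h1
  have h2 := ContinuousMap.tendsto_iff_forall_isCompact_tendstoUniformlyOn.1 hvu _ hK
  rw [Metric.tendstoUniformlyOn_iff] at h2
  obtain ⟨N, hN⟩ := eventually_atTop.1 (h2 ε hε)
  obtain ⟨m, hm⟩ := hv N
  refine ⟨m, fun a ha => ?_⟩
  have h3 := hN N le_rfl a (fun i _ => abs_le.1 (ha i))
  rw [Real.dist_eq, ← hm] at h3
  exact h3.le

theorem FS_approx {n : ℕ} (φ : Fm n) : ∀ R ε : ℝ, 0 < ε → ∃ d, ∃ f ∈ FS M d n,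
    ∀ x : Fin n → M.E, (∀ i, M.opNorm (x i) ≤ R) → |φ.val (str M) x - f x| ≤ ε := by
  have hT := M.trAlg
  induction φ with
  | re t =>
    intro R ε hε
    obtain ⟨d, s, hs, h⟩ := TS_approx M t R ε hε
    refine ⟨0, _, Or.inl (Or.inl (Set.mem_iUnion.2 ⟨d, s, hs, rfl⟩)), fun x hx => ?_⟩
    show |(M.τ (tval M x t)).re - (M.τ (s x)).re| ≤ ε
    rw [← Complex.sub_re, ← map_sub]
    exact (Complex.abs_re_le_norm _).trans ((norm_tr_le M _).trans (h x hx))
  | im t =>
    intro R ε hε
    obtain ⟨d, s, hs, h⟩ := TS_approx M t R ε hε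
    refine ⟨0, _, Or.inl (Or.inr (Set.mem_iUnion.2 ⟨d, s, hs, rfl⟩)), fun x hx => ?_⟩
    show |(M.τ (tval M x t)).im - (M.τ (s x)).im| ≤ ε
    rw [← Complex.sub_im, ← map_sub]
    exact (Complex.abs_im_le_norm _).trans ((norm_tr_le M _).trans (h x hx))
  | nrm t =>
    intro R ε hε
    obtain ⟨d, s, hs, h⟩ := TS_approx M t R ε hε
    refine ⟨0, _, Or.inr (Set.mem_iUnion.2 ⟨d, s, hs, rfl⟩), fun x hx => ?_⟩
    show |n2 M.τ (tval M x t) - n2 M.τ (s x)| ≤ ε
    have h0 : n2 M.τ (tval M x t - s x) ≤ ε := (n2_le_opNorm M _).trans (h x hx)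
    have h1 := hT.n2_add_le (tval M x t - s x) (s x)
    have h2 := hT.n2_add_le (s x - tval M x t) (tval M x t)
    rw [sub_add_cancel] at h1 h2
    rw [hT.n2_sub_comm] at h2
    rw [abs_le]
    constructor <;> linarith
  | @conn n k u φ ih =>
    intro R ε hε
    choose C hC hb using fun i => fval_bdd (φ i) R
    have hCi : ∀ i, C i ≤ ∑ i, C i := fun i =>
      Finset.single_le_sum (f := C) (fun i _ => hC i) (Finset.mem_univ i)
    set B := ∑ i, C i + 1 with hB
    obtain ⟨δ, hδ, h⟩ := unif_conn u B (ε / 2) (by linarith)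
    obtain ⟨m, hm⟩ := dense_conn u B (ε / 2) (by linarith)
    choose d f hf h' using fun i => ih i R (min δ 1) (lt_min hδ one_pos)
    refine ⟨(∑ i, d i) + 1, fun x => TopologicalSpace.denseSeq C(Fin k → ℝ, ℝ) m (fun i => f i x),
      Or.inl (Or.inl (Or.inr (Set.mem_iUnion.2 ⟨k, Set.mem_iUnion.2 ⟨m, f, fun i _ =>
        FS_mono M (Finset.single_le_sum (f := d) (fun i _ => Nat.zero_le _) (Finset.mem_univ i))
          (hf i), rfl⟩⟩))), fun x hx => ?_⟩
    have a1 : ∀ i, |(φ i).val (str M) x| ≤ B := fun i => by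
      have := hb i M x hx
      have := hCi i
      linarith
    have a2 : ∀ i, |f i x| ≤ B := fun i => by
      have i1 := hb i M x hx
      have i2 := hCi i
      have i3 := (h' i x hx).trans (min_le_right _ _)
      rw [abs_le] at *
      constructor <;> linarith [i1.1, i1.2, i3.1, i3.2]
    have a3 := h _ _ a1 a2 fun i => (h' i x hx).trans (min_le_left _ _)
    have a4 := hm _ a2
    show |u (fun i => (φ i).val (str M) x) -
      TopologicalSpace.denseSeq C(Fin k → ℝ, ℝ) m (fun i => f i x)| ≤ ε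
    refine (abs_sub_le _ (u fun i => f i x) _).trans ?_
    linarith
  | sup r φ ih =>
    intro R ε hε
    obtain ⟨d, f, hf, h⟩ := ih (max R r) ε hε
    obtain ⟨C, hC⟩ := ball_vals φ r R
    refine ⟨d + 1, _, Or.inl (Or.inr (Set.mem_iUnion.2 ⟨r, f, hf, rfl⟩)), fun x hx => ?_⟩
    have := S.ball_ne M r
    exact abs_sup_sub _ _ ε C (fun z => hC M x hx z) fun z => h _ (cons_bdd M hx z)
  | inf r φ ih =>
    intro R ε hε
    obtain ⟨d, f, hf, h⟩ := ih (max R r) ε hε
    obtain ⟨C, hC⟩ := ball_vals φ r R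
    refine ⟨d + 1, _, Or.inr (Set.mem_iUnion.2 ⟨r, f, hf, rfl⟩), fun x hx => ?_⟩
    have := S.ball_ne M r
    exact abs_inf_sub _ _ ε C (fun z => hC M x hx z) fun z => h _ (cons_bdd M hx z)

end Pool.Agent.Q150.EG
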