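import Mathlib
import Pool.Agent.H504R3.SDefs

/-!
The group von Neumann algebra as a structure of the continuous logic of tracial von Neumann algebras.
The Hilbert space `ℓ²(G)` is given as a Hilbert space `K` with an orthonormal basis `b` indexed by `G`.
-/

set_option autoImplicit false

open scoped InnerProductSpace

namespace Pool.Agent.Q150.EG

section

variable {G : Type} [Group G] {K : Type} [NormedAddCommGroup K] [InnerProductSpace ℂ K]
  [CompleteSpace K] (b : HilbertBasis G ℂ K)

/-- The left translations `λ_g`, `λ_g δ_h = δ_{g h}`, as operators on `ℓ²(G)`. -/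
def leftTranslations : Set (K →L[ℂ] K) := {T | ∃ g : G, ∀ h : G, T (b h) = b (g * h)}

/-- The group von Neumann algebra of `G` as a set of operators on `ℓ²(G)`: the double commutant of the
left translations. -/
noncomputable def groupAlg : StarSubalgebra ℂ (K →L[ℂ] K) :=
  StarSubalgebra.centralizer ℂ (StarSubalgebra.centralizer ℂ (leftTranslations b) : Set (K →L[ℂ] K))

/-- The elements of `L(G)`. -/
def Op : Type := {x : K →L[ℂ] K // x ∈ groupAlg b}

/-- The identity operator. -/
noncomputable def opOne : Op b := ⟨1, one_mem _⟩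

/-- The sum of operators. -/
noncomputable def opAdd (x y : Op b) : Op b := ⟨x.1 + y.1, add_mem x.2 y.2⟩

/-- The product of operators. -/
noncomputable def opMul (x y : Op b) : Op b := ⟨x.1 * y.1, mul_mem x.2 y.2⟩

/-- The adjoint operator. -/
noncomputable def opAdj (x : Op b) : Op b := ⟨star x.1, star_mem x.2⟩

/-- The scalar multiples. -/
noncomputable def opScal (c : ℂ) (x : Op b) : Op b := ⟨c • x.1, (groupAlg b).smul_mem x.2 c⟩

/-- The operator norm. -/
noncomputable def opNrm (x : Op b) : ℝ := ‖x.1‖

/-- The canonical trace `x ↦ ⟨δ₁, x δ₁⟩`. -/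
noncomputable def opTr (x : Op b) : ℂ := ⟪b 1, x.1 (b 1)⟫_ℂ

/-- The tracial von Neumann algebra `L(G)`, with the operator norm and the canonical trace. -/
noncomputable def L : Pool.Agent.H504R3.S.Str where
  carrier := Op b
  one := opOne b
  add := opAdd b
  mul := opMul b
  adj := opAdj b
  scal := opScal b
  nrm := opNrm b
  tr := opTr b

end

/-- `L(G) ≡ L(H)`: for all realizations of `ℓ²(G)` and `ℓ²(H)` as Hilbert spaces `K₁`, `K₂` with
orthonormal bases indexed by `G` and by `H`, the structures `L(G)` and `L(H)` are elementarily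
equivalent. -/
def LEquiv (G H : Type) [Group G] [Group H] : Prop :=
  ∀ (K₁ K₂ : Type) [NormedAddCommGroup K₁] [InnerProductSpace ℂ K₁] [CompleteSpace K₁]
    [NormedAddCommGroup K₂] [InnerProductSpace ℂ K₂] [CompleteSpace K₂]
    (b₁ : HilbertBasis G ℂ K₁) (b₂ : HilbertBasis H ℂ K₂), (L b₁).ElemEq (L b₂)

end Pool.Agent.Q150.EG
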