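import Mathlib
import Pool.Agent.Q150.EG.GDefs
import Pool.Agent.Q150.EG.Alg

/-!
The two definitions of the group von Neumann algebra agree.
-/

set_option autoImplicit false

open scoped InnerProductSpace

namespace Pool.Agent.Q150.EG

open Pool.Agent.Helper278
open Pool.Agent.H504R3.S (str Str Fm Tm)

/-! ### Isomorphic structures are elementarily equivalent -/

/-- an isomorphism of structures -/
structure IsIso (M N : Str) (e : M.carrier ≃ N.carrier) : Prop where
  one : e M.one = N.one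
  add : ∀ x y, e (M.add x y) = N.add (e x) (e y)
  mul : ∀ x y, e (M.mul x y) = N.mul (e x) (e y)
  adj : ∀ x, e (M.adj x) = N.adj (e x)
  scal : ∀ c x, e (M.scal c x) = N.scal c (e x)
  nrm : ∀ x, N.nrm (e x) = M.nrm x
  tr : ∀ x, N.tr (e x) = M.tr x

theorem IsIso.tm {M N : Str} {e : M.carrier ≃ N.carrier} (h : IsIso M N e) {V : Type}
    (x : V → M.carrier) (t : Tm V) : t.val N (fun i => e (x i)) = e (t.val M x) := by
  induction t with
  | var v => rfl
  | one => exact h.one.symm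
  | add s t hs ht =>
    show N.add (s.val N _) (t.val N _) = e (M.add _ _)
    rw [hs, ht, h.add]
  | mul s t hs ht =>
    show N.mul (s.val N _) (t.val N _) = e (M.mul _ _)
    rw [hs, ht, h.mul]
  | adj s hs =>
    show N.adj (s.val N _) = e (M.adj _)
    rw [hs, h.adj]
  | scal c s hs =>
    show N.scal c (s.val N _) = e (M.scal c _)
    rw [hs, h.scal]

theorem IsIso.norm2 {M N : Str} {e : M.carrier ≃ N.carrier} (h : IsIso M N e) (x : M.carrier) :
    N.norm2 (e x) = M.norm2 x := by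
  unfold Str.norm2
  rw [← h.adj, ← h.mul, h.tr]

theorem IsIso.fm {M N : Str} {e : M.carrier ≃ N.carrier} (h : IsIso M N e) {n : ℕ} (φ : Fm n) :
    ∀ x : Fin n → M.carrier, φ.val N (fun i => e (x i)) = φ.val M x := by
  have hcons : ∀ {n : ℕ} (y : M.carrier) (x : Fin n → M.carrier),
      (fun i => e ((Fin.cons y x : Fin (n + 1) → M.carrier) i)) =
        (Fin.cons (e y) fun i => e (x i) : Fin (n + 1) → N.carrier) := by
    intro n y x
    funext i
    refine Fin.cases ?_ (fun j => ?_) i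
    · rfl
    · rfl
  induction φ with
  | re t =>
    intro x
    show (N.tr (t.val N _)).re = (M.tr (t.val M x)).re
    rw [h.tm, h.tr]
  | im t =>
    intro x
    show (N.tr (t.val N _)).im = (M.tr (t.val M x)).im
    rw [h.tm, h.tr]
  | nrm t =>
    intro x
    show N.norm2 (t.val N _) = M.norm2 (t.val M x)
    rw [h.tm, h.norm2]
  | @conn n k u φ ih =>
    intro x
    show u (fun i => (φ i).val N _) = u (fun i => (φ i).val M x)
    congr 1
    funext i
    exact ih i x
  | @sup n r φ ih =>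
    intro x
    show (⨆ y : N.Ball r, φ.val N (Fin.cons y.1 fun i => e (x i))) =
      ⨆ y : M.Ball r, φ.val M (Fin.cons y.1 x)
    symm
    refine Equiv.iSup_congr (e.subtypeEquiv fun y => by rw [h.nrm]) fun y => ?_
    rw [← ih (Fin.cons y.1 x), hcons]
    rfl
  | @inf n r φ ih =>
    intro x
    show (⨅ y : N.Ball r, φ.val N (Fin.cons y.1 fun i => e (x i))) =
      ⨅ y : M.Ball r, φ.val M (Fin.cons y.1 x)
    symm
    refine Equiv.iInf_congr (e.subtypeEquiv fun y => by rw [h.nrm]) fun y => ?_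
    rw [← ih (Fin.cons y.1 x), hcons]
    rfl

theorem IsIso.elemEq {M N : Str} {e : M.carrier ≃ N.carrier} (h : IsIso M N e) : M.ElemEq N := by
  intro φ
  rw [← h.fm φ Fin.elim0]
  congr 1
  funext i
  exact i.elim0

/-! ### Independence of the Hilbert space -/

theorem mem_centralizer_equiv {A B : Type} [Ring A] [StarRing A] [Algebra ℂ A] [StarModule ℂ A]
    [Ring B] [StarRing B] [Algebra ℂ B] [StarModule ℂ B] (c : A ≃⋆ₐ[ℂ] B) (S : Set A) (S' : Set B)
    (h : ∀ a, a ∈ S ↔ c a ∈ S') (z : A) :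
    z ∈ StarSubalgebra.centralizer ℂ S ↔ c z ∈ StarSubalgebra.centralizer ℂ S' := by
  rw [StarSubalgebra.mem_centralizer_iff, StarSubalgebra.mem_centralizer_iff]
  constructor
  · intro hz g' hg
    obtain ⟨g, hgg⟩ : ∃ g, c g = g' := c.surjective g'
    subst hgg
    obtain ⟨h1, h2⟩ := hz g ((h g).2 hg)
    rw [← map_star c g, ← map_mul c g z, ← map_mul c z g, ← map_mul c (star g) z,
      ← map_mul c z (star g), h1, h2]
    exact ⟨rfl, rfl⟩
  · intro hz g hg
    obtain ⟨h1, h2⟩ := hz (c g) ((h g).1 hg)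
    rw [← map_star c g, ← map_mul c (star g) z, ← map_mul c z (star g)] at h2
    rw [← map_mul c g z, ← map_mul c z g] at h1
    exact ⟨c.injective h1, c.injective h2⟩

section

variable {G : Type} [Group G] {K K' : Type} [NormedAddCommGroup K] [InnerProductSpace ℂ K]
  [CompleteSpace K] [NormedAddCommGroup K'] [InnerProductSpace ℂ K'] [CompleteSpace K']
  (b : HilbertBasis G ℂ K) (b' : HilbertBasis G ℂ K') (e : K ≃ₗᵢ[ℂ] K')

theorem conj_apply (x : K →L[ℂ] K) (v : K') : e.conjStarAlgEquiv x v = e (x (e.symm v)) := rfl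

theorem norm_conj_le (x : K →L[ℂ] K) : ‖e.conjStarAlgEquiv x‖ ≤ ‖x‖ := by
  refine ContinuousLinearMap.opNorm_le_bound _ (norm_nonneg _) fun v => ?_
  rw [conj_apply, LinearIsometryEquiv.norm_map]
  refine (x.le_opNorm _).trans ?_
  rw [LinearIsometryEquiv.norm_map]

theorem norm_conj (x : K →L[ℂ] K) : ‖e.conjStarAlgEquiv x‖ = ‖x‖ := by
  refine le_antisymm (norm_conj_le e x) ?_
  have h := norm_conj_le e.symm (e.conjStarAlgEquiv x)
  have h2 : e.symm.conjStarAlgEquiv (e.conjStarAlgEquiv x) = x := by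
    apply ContinuousLinearMap.ext
    intro v
    rw [conj_apply, conj_apply]
    simp
  rwa [h2] at h

variable (he : ∀ g, e (b g) = b' g)
include he

theorem mem_lt (x : K →L[ℂ] K) : x ∈ leftTranslations b ↔ e.conjStarAlgEquiv x ∈ leftTranslations b' := by
  refine exists_congr fun g => forall_congr' fun h => ?_
  rw [conj_apply, ← he, ← he, e.symm_apply_apply]
  exact e.injective.eq_iff.symm

theorem mem_groupAlg_conj (x : K →L[ℂ] K) : x ∈ groupAlg b ↔ e.conjStarAlgEquiv x ∈ groupAlg b' :=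
  mem_centralizer_equiv e.conjStarAlgEquiv _ _
    (mem_centralizer_equiv e.conjStarAlgEquiv _ _ (mem_lt b b' e he)) x

theorem elemEq_of_conj : (L b).ElemEq (L b') := by
  refine IsIso.elemEq (e := (e.conjStarAlgEquiv.toEquiv.subtypeEquiv
    (mem_groupAlg_conj b b' e he))) ⟨?_, ?_, ?_, ?_, ?_, ?_, ?_⟩
  · exact Subtype.ext (map_one e.conjStarAlgEquiv)
  · exact fun x y => Subtype.ext (map_add e.conjStarAlgEquiv x.1 y.1)
  · exact fun x y => Subtype.ext (map_mul e.conjStarAlgEquiv x.1 y.1)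
  · exact fun x => Subtype.ext (map_star e.conjStarAlgEquiv x.1)
  · exact fun c x => Subtype.ext (map_smul e.conjStarAlgEquiv c x.1)
  · exact fun x => norm_conj e x.1
  · intro x
    show ⟪b' 1, e.conjStarAlgEquiv x.1 (b' 1)⟫_ℂ = ⟪b 1, x.1 (b 1)⟫_ℂ
    rw [← he, conj_apply, e.symm_apply_apply, e.inner_map_map]

end

theorem elemEq_bases {G : Type} [Group G] {K K' : Type} [NormedAddCommGroup K]
    [InnerProductSpace ℂ K] [CompleteSpace K] [NormedAddCommGroup K'] [InnerProductSpace ℂ K']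
    [CompleteSpace K'] (b : HilbertBasis G ℂ K) (b' : HilbertBasis G ℂ K') : (L b).ElemEq (L b') := by
  refine elemEq_of_conj b b' (b.repr.trans b'.repr.symm) fun g => ?_
  classical
  show b'.repr.symm (b.repr (b g)) = b' g
  rw [HilbertBasis.repr_self]
  exact b'.repr_symm_single g

/-! ### The standard realization -/

theorem leftTranslations_eq (G : Type) [Group G] :
    leftTranslations (bs G) = Set.range (lamK (bs G)) := by
  apply Set.Subset.antisymm
  · rintro T ⟨g, hg⟩
    refine ⟨g, ?_⟩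
    refine ext_basis (bs G) fun h => ?_
    rw [lamK_basis]
    exact (hg h).symm
  · rintro _ ⟨g, rfl⟩
    exact ⟨g, fun h => lamK_basis (bs G) g h⟩

theorem mem_groupAlg (G : Type) [Group G] (x : EllTwo G →L[ℂ] EllTwo G) :
    x ∈ groupAlg (bs G) ↔ x ∈ LK (bs G) := by
  unfold groupAlg
  rw [leftTranslations_eq]
  exact Iff.rfl

/-- the structure of the operators in a star subalgebra -/
noncomputable def ofSub (G : Type) (A : StarSubalgebra ℂ (EllTwo G →L[ℂ] EllTwo G)) (ξ : EllTwo G) :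
    Str where
  carrier := {x : EllTwo G →L[ℂ] EllTwo G // x ∈ A}
  one := ⟨1, one_mem _⟩
  add x y := ⟨x.1 + y.1, add_mem x.2 y.2⟩
  mul x y := ⟨x.1 * y.1, mul_mem x.2 y.2⟩
  adj x := ⟨star x.1, star_mem x.2⟩
  scal c x := ⟨c • x.1, A.smul_mem x.2 c⟩
  nrm x := ‖x.1‖
  tr x := ⟪ξ, x.1 ξ⟫_ℂ

theorem L_eq_ofSub (G : Type) [Group G] : L (bs G) = ofSub G (groupAlg (bs G)) (bs G 1) := rfl

theorem LG_eq_ofSub (G : Type) [Group G] :
    str (LG G) = ofSub G (LK (bs G)).toStarSubalgebra (bs G 1) := rfl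

theorem L_eq (G : Type) [Group G] : L (bs G) = str (LG G) := by
  rw [L_eq_ofSub, LG_eq_ofSub]
  congr 1
  ext x
  exact mem_groupAlg G x

theorem lEquiv_of (G H : Type) [Group G] [Group H] (h : (str (LG G)).ElemEq (str (LG H))) :
    LEquiv G H := by
  intro K₁ K₂ _ _ _ _ _ _ b₁ b₂ φ
  have h1 := elemEq_bases b₁ (bs G) φ
  have h2 := elemEq_bases (bs H) b₂ φ
  rw [L_eq] at h1 h2
  exact h1.trans ((h φ).trans h2)

theorem LEquiv.trans' {G H U : Type} [Group G] [Group H] [Group U] (h1 : LEquiv G U)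
    (h2 : LEquiv H U) : LEquiv G H := by
  intro K₁ K₂ _ _ _ _ _ _ b₁ b₂ φ
  exact (h1 K₁ (EllTwo U) b₁ (bs U) φ).trans (h2 K₂ (EllTwo U) b₂ (bs U) φ).symm

end Pool.Agent.Q150.EG
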