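import Mathlib
import Pool.Agent.Q150.EG.Form
import Pool.Agent.Q150.EG.Alg

/-!
A Loewenheim-Skolem theorem for the pair of a group `U` and its von Neumann algebra `L(U)`: every
countable subset of `U` is contained in a countable subgroup `S`, closed under prescribed operations,
such that `L(S)` is elementarily equivalent to `L(U)`.
-/

set_option autoImplicit false
set_option linter.unusedSectionVars false

open scoped Topology
open Filter

namespace Pool.Agent.Q150.EG

open Pool.Agent.Helper278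
open Pool.Agent.Q301.VN
open Pool.Agent.H504R3 hiding Tm Fm
open Pool.Agent.H504R3.S (str Str Tm Fm tval)

section

variable {U : Type} [Group U] (S : Subgroup U)

/-- the Tarski-Vaught property -/
def TV : Prop :=
  ∀ (n : ℕ) (φ : Fm (n + 1)) (x : Fin n → (LG S).E) (r : ℕ) (ε : ℝ), 0 < ε →
    ∃ y : (LG S).E, (LG S).opNorm y ≤ r ∧
      φ.val (str (LG U)) (Fin.cons (iota S y) fun i => iota S (x i)) ≤
        (⨅ z : (str (LG U)).Ball r, φ.val (str (LG U)) (Fin.cons z.1 fun i => iota S (x i))) + ε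

theorem tval_iota {V : Type} (x : V → (LG S).E) (t : Tm V) :
    tval (LG U) (fun i => iota S (x i)) t = iota S (tval (LG S) x t) := by
  induction t with
  | var v => rfl
  | one => exact (map_one (iota S)).symm
  | add s t hs ht =>
    show tval (LG U) (fun i => iota S (x i)) s + tval (LG U) (fun i => iota S (x i)) t = _
    rw [hs, ht, ← map_add]
    rfl
  | mul s t hs ht =>
    show tval (LG U) (fun i => iota S (x i)) s * tval (LG U) (fun i => iota S (x i)) t = _
    rw [hs, ht, ← map_mul]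
    rfl
  | adj s hs =>
    show star (tval (LG U) (fun i => iota S (x i)) s) = _
    rw [hs, ← map_star]
    rfl
  | scal c s hs =>
    show c • (tval (LG U) (fun i => iota S (x i)) s) = _
    rw [hs, ← map_smul]
    rfl

theorem cons_iota {n : ℕ} (y : (LG S).E) (x : Fin n → (LG S).E) :
    (fun i => iota S ((Fin.cons y x : Fin (n + 1) → (LG S).E) i)) =
      (Fin.cons (iota S y) fun i => iota S (x i) : Fin (n + 1) → (LG U).E) := by
  funext i
  refine Fin.cases ?_ (fun j => ?_) i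
  · rfl
  · rfl

/-- the negation -/
def negC : C(Fin 1 → ℝ, ℝ) := ⟨fun a => -a 0, by fun_prop⟩

/-- a bound of the norms -/
theorem exists_bd {M : TVN} {n : ℕ} (x : Fin n → M.E) : ∃ R : ℕ, ∀ i, M.opNorm (x i) ≤ R := by
  refine ⟨∑ i, ⌈M.opNorm (x i)⌉₊, fun i => (Nat.le_ceil _).trans ?_⟩
  exact_mod_cast Finset.single_le_sum (f := fun i => ⌈M.opNorm (x i)⌉₊) (fun i _ => Nat.zero_le _)
    (Finset.mem_univ i)

theorem val_iota (h : TV S) {n : ℕ} (φ : Fm n) : ∀ x : Fin n → (LG S).E,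
    φ.val (str (LG S)) x = φ.val (str (LG U)) (fun i => iota S (x i)) := by
  induction φ with
  | re t =>
    intro x
    show ((LG S).τ (tval (LG S) x t)).re = ((LG U).τ (tval (LG U) _ t)).re
    rw [tval_iota, tr_iota]
  | im t =>
    intro x
    show ((LG S).τ (tval (LG S) x t)).im = ((LG U).τ (tval (LG U) _ t)).im
    rw [tval_iota, tr_iota]
  | nrm t =>
    intro x
    show (LG S).norm2 (tval (LG S) x t) = (LG U).norm2 (tval (LG U) _ t)
    rw [tval_iota, norm2_iota]
  | @conn n k u φ ih =>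
    intro x
    show u (fun i => (φ i).val (str (LG S)) x) = u (fun i => (φ i).val (str (LG U)) _)
    congr 1
    funext i
    exact ih i x
  | @sup n r φ ih =>
    intro x
    obtain ⟨R, hR⟩ := exists_bd (M := LG U) fun i => iota S (x i)
    obtain ⟨C, hC⟩ := ball_vals φ r R
    have nP := Pool.Agent.H504R3.S.ball_ne (LG S) r
    have nM := Pool.Agent.H504R3.S.ball_ne (LG U) r
    have e1 : ∀ y : (LG S).E, φ.val (str (LG S)) (Fin.cons y x) =
        φ.val (str (LG U)) (Fin.cons (iota S y) fun i => iota S (x i)) := fun y =>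
      (ih (Fin.cons y x)).trans (congrArg (φ.val (str (LG U))) (cons_iota S y x))
    have bM : BddAbove (Set.range fun z : (str (LG U)).Ball r =>
        φ.val (str (LG U)) (Fin.cons z.1 fun i => iota S (x i))) :=
      ⟨C, by rintro _ ⟨z, rfl⟩; exact (abs_le.1 (hC (LG U) _ hR z)).2⟩
    have bP : BddAbove (Set.range fun y : (str (LG S)).Ball r =>
        φ.val (str (LG S)) (Fin.cons y.1 x)) := by
      refine ⟨C, ?_⟩
      rintro _ ⟨y, rfl⟩
      show φ.val (str (LG S)) (Fin.cons y.1 x) ≤ C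
      rw [e1]
      exact (abs_le.1 (hC (LG U) _ hR ⟨iota S y.1, (opNorm_iota S y.1).le.trans y.2⟩)).2
    show (⨆ y : (str (LG S)).Ball r, φ.val (str (LG S)) (Fin.cons y.1 x)) =
      ⨆ z : (str (LG U)).Ball r, φ.val (str (LG U)) (Fin.cons z.1 fun i => iota S (x i))
    refine le_antisymm (ciSup_le fun y => ?_) (ciSup_le fun z => ?_)
    · rw [e1]
      exact le_ciSup bM ⟨iota S y.1, (opNorm_iota S y.1).le.trans y.2⟩
    · refine le_of_forall_pos_le_add fun ε hε => ?_
      obtain ⟨y, hy, hle⟩ := h n (.conn negC fun _ => φ) x r ε hε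
      have h1 : -(φ.val (str (LG U)) (Fin.cons (iota S y) fun i => iota S (x i))) ≤
          (⨅ z : (str (LG U)).Ball r,
            -(φ.val (str (LG U)) (Fin.cons z.1 fun i => iota S (x i)))) + ε := hle
      have b' : BddBelow (Set.range fun z : (str (LG U)).Ball r =>
          -(φ.val (str (LG U)) (Fin.cons z.1 fun i => iota S (x i)))) :=
        ⟨-C, by rintro _ ⟨z, rfl⟩; exact neg_le_neg (abs_le.1 (hC (LG U) _ hR z)).2⟩
      have h2 := ciInf_le b' z
      have h3 := le_ciSup bP ⟨y, hy⟩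
      have h4 := e1 y
      have h3' : φ.val (str (LG S)) (Fin.cons y x) ≤
        ⨆ y : (str (LG S)).Ball r, φ.val (str (LG S)) (Fin.cons y.1 x) := h3
      linarith
  | @inf n r φ ih =>
    intro x
    obtain ⟨R, hR⟩ := exists_bd (M := LG U) fun i => iota S (x i)
    obtain ⟨C, hC⟩ := ball_vals φ r R
    have nP := Pool.Agent.H504R3.S.ball_ne (LG S) r
    have nM := Pool.Agent.H504R3.S.ball_ne (LG U) r
    have e1 : ∀ y : (LG S).E, φ.val (str (LG S)) (Fin.cons y x) =
        φ.val (str (LG U)) (Fin.cons (iota S y) fun i => iota S (x i)) := fun y =>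
      (ih (Fin.cons y x)).trans (congrArg (φ.val (str (LG U))) (cons_iota S y x))
    have bM : BddBelow (Set.range fun z : (str (LG U)).Ball r =>
        φ.val (str (LG U)) (Fin.cons z.1 fun i => iota S (x i))) :=
      ⟨-C, by rintro _ ⟨z, rfl⟩; exact (abs_le.1 (hC (LG U) _ hR z)).1⟩
    have bP : BddBelow (Set.range fun y : (str (LG S)).Ball r =>
        φ.val (str (LG S)) (Fin.cons y.1 x)) := by
      refine ⟨-C, ?_⟩
      rintro _ ⟨y, rfl⟩
      show -C ≤ φ.val (str (LG S)) (Fin.cons y.1 x)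
      rw [e1]
      exact (abs_le.1 (hC (LG U) _ hR ⟨iota S y.1, (opNorm_iota S y.1).le.trans y.2⟩)).1
    show (⨅ y : (str (LG S)).Ball r, φ.val (str (LG S)) (Fin.cons y.1 x)) =
      ⨅ z : (str (LG U)).Ball r, φ.val (str (LG U)) (Fin.cons z.1 fun i => iota S (x i))
    refine le_antisymm ?_ (le_ciInf fun y => ?_)
    · refine le_of_forall_pos_le_add fun ε hε => ?_
      obtain ⟨y, hy, hle⟩ := h n φ x r ε hε
      have h3 := ciInf_le bP ⟨y, hy⟩
      have h3' : (⨅ y : (str (LG S)).Ball r, φ.val (str (LG S)) (Fin.cons y.1 x)) ≤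
        φ.val (str (LG S)) (Fin.cons y x) := h3
      rw [e1] at h3'
      exact h3'.trans hle
    · rw [e1]
      exact ciInf_le bM ⟨iota S y.1, (opNorm_iota S y.1).le.trans y.2⟩

theorem elemEq_of_TV (h : TV S) : (str (LG S)).ElemEq (str (LG U)) := by
  intro φ
  refine (val_iota S h φ Fin.elim0).trans ?_
  congr 1
  funext i
  exact i.elim0

end

section

variable {U : Type} [Group U]

/-- a countable dense set -/
noncomputable def dn (S : Subgroup U) [Countable S] (R : ℝ) : Set (LG S).E :=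
  Classical.choose (exists_dense (G := S) R)

theorem dn_spec (S : Subgroup U) [Countable S] (R : ℝ) : (dn S R).Countable ∧
    (∀ x ∈ dn S R, (LG S).opNorm x ≤ R) ∧
      ∀ x : (LG S).E, (LG S).opNorm x ≤ R → ∀ ε : ℝ, 0 < ε → ∃ y ∈ dn S R,
        (LG S).norm2 (x - y) < ε :=
  Classical.choose_spec (exists_dense (G := S) R)

theorem countable_supp (z : (LG U).E) : {u | cf z u ≠ 0}.Countable := by
  have h1 : (0 : ℝ) < (2 : ENNReal).toReal := by norm_num
  have h3 := (lp.memℓp (vec z)).summable h1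
  refine h3.countable_support.mono fun u hu => ?_
  rw [Function.mem_support]
  have h4 : ‖vec z u‖ ≠ 0 := norm_ne_zero_iff.2 hu
  exact (Real.rpow_pos_of_pos (lt_of_le_of_ne (norm_nonneg _) (Ne.symm h4)) _).ne'

/-- one step of the construction -/
def Step (S S' : Subgroup U) [Countable S] : Prop :=
  ∀ (n d : ℕ) (f : (Fin (n + 1) → (LG U).E) → ℝ), f ∈ FS (LG U) d (n + 1) →
    ∀ (R : ℕ) (x : Fin n → (LG S).E), (∀ i, x i ∈ dn S R) → ∀ (r : ℕ) (q : ℚ),
      (∃ z : (LG U).E, (LG U).opNorm z ≤ r ∧ f (Fin.cons z fun i => iota S (x i)) < q) →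
      ∃ z : (LG U).E, (LG U).opNorm z ≤ r ∧ f (Fin.cons z fun i => iota S (x i)) < q ∧
        ∀ u, cf z u ≠ 0 → u ∈ S'

theorem exists_step (S : Subgroup U) [Countable S] : ∃ A : Set U, A.Countable ∧
    ∀ S' : Subgroup U, A ⊆ S' → Step S S' := by
  classical
  let I : Type := Σ (p : ℕ × ℕ × ℕ × ℕ × ℚ), ({f // f ∈ FS (LG U) p.2.1 (p.1 + 1)} ×
    (Fin p.1 → {x // x ∈ dn S (p.2.2.1 : ℝ)}))
  have hI : Countable I := by
    have h1 : ∀ p : ℕ × ℕ × ℕ × ℕ × ℚ, Countable ({f // f ∈ FS (LG U) p.2.1 (p.1 + 1)} ×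
        (Fin p.1 → {x // x ∈ dn S (p.2.2.1 : ℝ)})) := by
      intro p
      have := (FS_count (LG U) p.2.1 (p.1 + 1)).to_subtype
      have := (dn_spec S (p.2.2.1 : ℝ)).1.to_subtype
      infer_instance
    infer_instance
  let P : I → (LG U).E → Prop := fun i z => (LG U).opNorm z ≤ i.1.2.2.2.1 ∧
    i.2.1.1 (Fin.cons z fun j => iota S (i.2.2 j).1) < i.1.2.2.2.2
  let w : I → (LG U).E := fun i => if h : ∃ z, P i z then Classical.choose h else 0
  have hw : ∀ i, (∃ z, P i z) → P i (w i) := by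
    intro i h
    show P i (if h : ∃ z, P i z then Classical.choose h else 0)
    rw [dif_pos h]
    exact Classical.choose_spec h
  refine ⟨⋃ i, {u | cf (w i) u ≠ 0}, Set.countable_iUnion fun i => countable_supp _, ?_⟩
  intro S' hS' n d f hf R x hx r q hz
  let i : I := ⟨(n, d, R, r, q), (⟨f, hf⟩, fun j => ⟨x j, hx j⟩)⟩
  have h := hw i hz
  exact ⟨w i, h.1, h.2, fun u hu => hS' (Set.mem_iUnion.2 ⟨i, hu⟩)⟩

theorem tv_of_steps (S : ℕ → Subgroup U) (hmono : Monotone S) [∀ n, Countable (S n)]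
    (hst : ∀ n, Step (S n) (S (n + 1))) (T : Subgroup U) (hmem : ∀ u, u ∈ T ↔ ∃ n, u ∈ S n) :
    TV T := by
  intro n φ x r ε hε
  set M := LG U with hM
  set X : Fin n → M.E := fun i => iota T (x i) with hX
  obtain ⟨R, hR⟩ := exists_bd (M := M) X
  have hsupp : ∀ i u, cf (X i) u ≠ 0 → ∃ n, u ∈ S n := by
    classical
    intro i u hu
    rw [← hmem]
    by_contra h
    apply hu
    show cf (iota T (x i)) u = 0
    rw [cf_iota, dif_neg h]
  obtain ⟨δ, hδ, hunif⟩ := fm_unif M φ (max R r) (ε / 8) (by linarith)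
  obtain ⟨d, f, hf, hfa⟩ := FS_approx M φ (max R r) (ε / 8) (by linarith)
  choose N hN using fun i => exists_approx S hmono (X i) (hsupp i) (δ / 2) (by linarith)
  set m := ∑ i, N i with hm
  have hNm : ∀ i, N i ≤ m := fun i =>
    Finset.single_le_sum (f := N) (fun i _ => Nat.zero_le _) (Finset.mem_univ i)
  have hcmp : ∀ i, (LG (S m)).opNorm (cmp (S m) (X i)) ≤ (R : ℝ) := fun i =>
    (opNorm_cmp (S m) (X i)).trans (hR i)
  choose y hy hyd using fun i => (dn_spec (S m) (R : ℝ)).2.2 _ (hcmp i) (δ / 2) (by linarith)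
  set X' : Fin n → M.E := fun i => iota (S m) (y i) with hX'
  have hR' : ∀ i, M.opNorm (X' i) ≤ R := fun i =>
    (opNorm_iota (S m) (y i)).le.trans ((dn_spec (S m) (R : ℝ)).2.1 _ (hy i))
  have hd : ∀ i, M.norm2 (X i - X' i) ≤ δ := by
    intro i
    have h1 := hN i m (hNm i)
    have h2 := hyd i
    rw [← norm2_iota (S m), map_sub] at h2
    have h3 := M.trAlg.n2_tri (X i) (iota (S m) (cmp (S m) (X i))) (X' i)
    have h1' : n2 M.τ (X i - iota (S m) (cmp (S m) (X i))) < δ / 2 := h1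
    have h2' : n2 M.τ (iota (S m) (cmp (S m) (X i)) - X' i) < δ / 2 := h2
    show n2 M.τ (X i - X' i) ≤ δ
    linarith
  have hcl : ∀ z : (str M).Ball r, |φ.val (str M) (Fin.cons z.1 X) -
      φ.val (str M) (Fin.cons z.1 X')| ≤ ε / 8 := by
    intro z
    refine hunif _ _ (cons_bdd M hR z) (cons_bdd M hR' z) fun i => ?_
    refine Fin.cases ?_ (fun j => ?_) i
    · have e : ∀ w : M.E, M.norm2 (w - w) ≤ δ := fun w => by
        rw [sub_self]
        exact M.trAlg.n2_zero.le.trans hδ.le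
      exact e z.1
    · exact hd j
  have hfz : ∀ z : (str M).Ball r, |φ.val (str M) (Fin.cons z.1 X') - f (Fin.cons z.1 X')| ≤ ε / 8 :=
    fun z => hfa _ (cons_bdd M hR' z)
  have := Pool.Agent.H504R3.S.ball_ne M r
  set c := ⨅ z : (str M).Ball r, φ.val (str M) (Fin.cons z.1 X) with hc
  obtain ⟨z0, hz0⟩ := exists_lt_of_ciInf_lt (show c < c + ε / 8 by linarith)
  obtain ⟨q, hq1, hq2⟩ := exists_rat_btwn (show c + 3 * (ε / 8) < c + 4 * (ε / 8) by linarith)
  have h0 : f (Fin.cons z0.1 X') < q := by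
    have i1 := abs_le.1 (hcl z0)
    have i2 := abs_le.1 (hfz z0)
    have i3 : φ.val (str M) (Fin.cons z0.1 X) < c + ε / 8 := hz0
    linarith [i1.1, i2.1]
  obtain ⟨z, hzn, hzf, hzs⟩ := hst m n d f hf R y hy r q ⟨z0.1, z0.2, h0⟩
  have hzT : iota T (cmp T z) = z := iota_cmp T z fun u hu => (hmem u).2 ⟨_, hzs u hu⟩
  refine ⟨cmp T z, (opNorm_cmp T z).trans hzn, ?_⟩
  rw [hzT]
  have i1 := abs_le.1 (hcl ⟨z, hzn⟩)
  have i2 := abs_le.1 (hfz ⟨z, hzn⟩)
  have i1' : φ.val (str M) (Fin.cons z X) - φ.val (str M) (Fin.cons z X') ≤ ε / 8 := i1.2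
  have i2' : φ.val (str M) (Fin.cons z X') - f (Fin.cons z X') ≤ ε / 8 := i2.2
  have i3 : f (Fin.cons z X') < q := hzf
  show φ.val (str M) (Fin.cons z X) ≤ c + ε
  linarith

instance countable_freeGroup {α : Type} [Countable α] : Countable (FreeGroup α) :=
  inferInstanceAs (Countable (Quot _))

theorem countable_cl {A : Set U} (hA : A.Countable) : Countable (Subgroup.closure A) := by
  have := hA.to_subtype
  rw [FreeGroup.closure_eq_range]
  exact (MonoidHom.rangeRestrict_surjective (FreeGroup.lift ((↑) : A → U))).countable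

/-- Loewenheim-Skolem -/
theorem exists_chain (Φ : Subgroup U → Set U → Prop)
    (hΦ : ∀ S : Subgroup U, Countable S → ∃ A : Set U, A.Countable ∧ Φ S A)
    (hmono : ∀ S A B, A ⊆ B → Φ S A → Φ S B) (A₀ : Set U) (hA₀ : A₀.Countable) :
    ∃ S : ℕ → Subgroup U, Monotone S ∧ A₀ ⊆ S 0 ∧ (∀ n, Countable (S n)) ∧
      (∀ n, Φ (S n) (S (n + 1))) ∧ (str (LG ↥(⨆ n, S n))).ElemEq (str (LG U)) := by
  classical
  have key : ∀ S : {S : Subgroup U // Countable S}, ∃ S' : {S : Subgroup U // Countable S},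
      S.1 ≤ S'.1 ∧ Φ S.1 S'.1 ∧ @Step U _ S.1 S'.1 S.2 := by
    rintro ⟨S, hS⟩
    obtain ⟨A, hA, hA'⟩ := hΦ S hS
    obtain ⟨B, hB, hB'⟩ := exists_step S
    have hc : ((S : Set U) ∪ A ∪ B).Countable := (hS.to_set.union hA).union hB
    have hcl : Countable (Subgroup.closure ((S : Set U) ∪ A ∪ B)) := countable_cl hc
    have hsub : (S : Set U) ∪ A ∪ B ⊆ Subgroup.closure ((S : Set U) ∪ A ∪ B) :=
      Subgroup.subset_closure
    refine ⟨⟨Subgroup.closure ((S : Set U) ∪ A ∪ B), hcl⟩, fun u hu => hsub (Or.inl (Or.inl hu)),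
      hmono _ _ _ (fun u hu => hsub (Or.inl (Or.inr hu))) hA', hB' _ fun u hu => hsub (Or.inr hu)⟩
  choose F hF using key
  have h0 : Countable (Subgroup.closure A₀) := countable_cl hA₀
  let T : ℕ → {S : Subgroup U // Countable S} := fun n => Nat.rec ⟨Subgroup.closure A₀, h0⟩
    (fun _ S => F S) n
  have hT : ∀ n, T (n + 1) = F (T n) := fun n => rfl
  have hmonoT : Monotone fun n => (T n).1 := monotone_nat_of_le_succ fun n => (hF (T n)).1
  have : ∀ n, Countable (T n).1 := fun n => (T n).2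
  refine ⟨fun n => (T n).1, hmonoT, Subgroup.subset_closure, fun n => (T n).2,
    fun n => (hF (T n)).2.1, ?_⟩
  exact elemEq_of_TV _ (tv_of_steps (fun n => (T n).1) hmonoT (fun n => (hF (T n)).2.2) _
    fun u => Subgroup.mem_iSup_of_directed hmonoT.directed_le)

end

end Pool.Agent.Q150.EG
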