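import Mathlib
import Pool.Agent.Q150.EG.EC
import Pool.Agent.Q150.EG.LS

/-!
A group containing all countable groups, and the main construction: closed countable subgroups with
elementarily equivalent von Neumann algebras.
-/

set_option autoImplicit false
set_option linter.unusedSectionVars false

namespace Pool.Agent.Q150.EG

open Function
open Pool.Agent.H504R3.S (str Str)

theorem exists_universal : ∃ (Γ : Type) (_ : Group Γ), ∀ (A : Type) [Group A] [Countable A],
    ∃ φ : A →* Γ, Injective φ := by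
  classical
  let I : Type := {N : Subgroup (FreeGroup ℕ) // N.Normal}
  have hN : ∀ N : I, N.1.Normal := fun N => N.2
  refine ⟨∀ N : I, FreeGroup ℕ ⧸ N.1, inferInstance, ?_⟩
  intro A _ _
  obtain ⟨f, hf⟩ := exists_surjective_nat A
  have hF : Surjective (FreeGroup.lift f) := fun a => by
    obtain ⟨n, rfl⟩ := hf a
    exact ⟨FreeGroup.of n, by simp⟩
  let e := QuotientGroup.quotientKerEquivOfSurjective (FreeGroup.lift f) hF
  let i : I := ⟨(FreeGroup.lift f).ker, inferInstance⟩
  refine ⟨(MonoidHom.mulSingle (fun N : I => FreeGroup ℕ ⧸ N.1) i).comp e.symm.toMonoidHom, ?_⟩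
  exact (Pi.mulSingle_injective i).comp e.symm.injective

/-- Given a group `U` containing all countable groups, and a countable group `A` and a countable group
`K`, there is a countable subgroup of `U`, closed under the prescribed operations, containing a copy
of `A`, not embeddable in `K`, with von Neumann algebra elementarily equivalent to that of `U`. -/
theorem exists_subgroup {U : Type} [Group U]
    (hU : ∀ (A : Type) [Group A] [Countable A], ∃ φ : A →* U, Injective φ)
    (Φ : Subgroup U → Set U → Prop)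
    (hΦ : ∀ S : Subgroup U, Countable S → ∃ A : Set U, A.Countable ∧ Φ S A)
    (hmono : ∀ S A B, A ⊆ B → Φ S A → Φ S B)
    (A K : Type) [Group A] [Group K] [Countable A] [Countable K] :
    ∃ S : ℕ → Subgroup U, Monotone S ∧ (∀ n, Φ (S n) (S (n + 1))) ∧ Countable ↥(⨆ n, S n) ∧
      (∃ φ : A →* ↥(⨆ n, S n), Injective φ) ∧ (∀ ψ : ↥(⨆ n, S n) →* K, ¬ Injective ψ) ∧
      (str (LG ↥(⨆ n, S n))).ElemEq (str (LG U)) := by
  obtain ⟨T, hT⟩ := exists_not_coded K
  obtain ⟨x, y, z, hxyz⟩ := codes_perm T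
  have hc : Countable (Subgroup.closure ({x, y, z} : Set PP)) :=
    countable_cl ((Set.toFinite _).countable)
  obtain ⟨φ, hφ⟩ := hU (A × Subgroup.closure ({x, y, z} : Set PP))
  obtain ⟨S, hS, h0, hcS, hΦS, hE⟩ := exists_chain Φ hΦ hmono (Set.range φ) (Set.countable_range _)
  have hmem : ∀ u : U, u ∈ (⨆ n, S n) ↔ ∃ n, u ∈ S n := fun u =>
    Subgroup.mem_iSup_of_directed hS.directed_le
  have hin : ∀ p, φ p ∈ ⨆ n, S n := fun p => (hmem _).2 ⟨0, h0 ⟨p, rfl⟩⟩
  let φ' : A × Subgroup.closure ({x, y, z} : Set PP) →* ↥(⨆ n, S n) := φ.codRestrict _ hin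
  have hφ' : Injective φ' := fun p q hpq => hφ (congrArg Subtype.val hpq)
  refine ⟨S, hS, hΦS, ?_, ⟨φ'.comp (MonoidHom.inl _ _), hφ'.comp fun a b hab => ?_⟩, ?_, hE⟩
  · have h1 : (⋃ n, (S n : Set U)).Countable := Set.countable_iUnion fun n => (hcS n).to_set
    have h2 : (↑(⨆ n, S n) : Set U) ⊆ ⋃ n, (S n : Set U) := fun u hu => by
      obtain ⟨n, hn⟩ := (hmem u).1 hu
      exact Set.mem_iUnion.2 ⟨n, hn⟩
    exact (h1.mono h2).to_subtype
  · exact congrArg Prod.fst hab
  · intro ψ hψ
    have hx : x ∈ Subgroup.closure ({x, y, z} : Set PP) := Subgroup.subset_closure (by simp)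
    have hy : y ∈ Subgroup.closure ({x, y, z} : Set PP) := Subgroup.subset_closure (by simp)
    have hz : z ∈ Subgroup.closure ({x, y, z} : Set PP) := Subgroup.subset_closure (by simp)
    have h1 : Codes (⟨x, hx⟩ : Subgroup.closure ({x, y, z} : Set PP)) ⟨y, hy⟩ ⟨z, hz⟩ T :=
      (codes_map (Subgroup.closure ({x, y, z} : Set PP)).subtype (Subgroup.subtype_injective _)
        ⟨x, hx⟩ ⟨y, hy⟩ ⟨z, hz⟩ T).1 hxyz
    have hθ : Injective (ψ.comp (φ'.comp (MonoidHom.inr A _))) :=
      hψ.comp (hφ'.comp fun a b hab => congrArg Prod.snd hab)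
    exact hT _ _ _ ((codes_map _ hθ _ _ _ T).2 h1)

end Pool.Agent.Q150.EG
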